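import Mathlib

set_option autoImplicit false

open Metric Set Filter Complex
open scoped Topology Real

namespace Pool.Agent.H46.Oka

/-- The strip `|Re w| < 1`, which covers the annulus `1/e < |z| < e`. -/
def strip : Set ℂ := {w | |w.re| < 1}

lemma isOpen_strip : IsOpen strip :=
  isOpen_lt (continuous_abs.comp Complex.continuous_re) continuous_const

lemma convex_strip : Convex ℝ strip := by
  have : strip = Complex.reLm ⁻¹' (Ioo (-1 : ℝ) 1) := by
    ext w; simp [strip, abs_lt]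
  rw [this]
  exact (convex_Ioo _ _).linear_preimage _

lemma zero_mem_strip : (0 : ℂ) ∈ strip := by simp [strip]

lemma add_mem_strip {w : ℂ} (hw : w ∈ strip) : w + 2 * π * I ∈ strip := by
  simpa [strip] using hw

/-- Lift to the strip of an annulus of degree one with values in the set `L` of `ℂ* × ℂ`. -/
structure IsAnn (L : Set (ℂ × ℂ)) (ξ y : ℂ → ℂ) : Prop where
  hξ : DifferentiableOn ℂ ξ strip
  hy : DifferentiableOn ℂ y strip
  pξ : ∀ w ∈ strip, ξ (w + 2 * π * I) = ξ w + 2 * π * I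
  py : ∀ w ∈ strip, y (w + 2 * π * I) = y w
  mem : ∀ w ∈ strip, (exp (ξ w), y w) ∈ L

/-- No annulus of degree one in `L`. -/
def Good (L : Set (ℂ × ℂ)) : Prop := ∀ ξ y : ℂ → ℂ, ¬ IsAnn L ξ y

lemma IsAnn.mono {L L' : Set (ℂ × ℂ)} {ξ y : ℂ → ℂ} (h : IsAnn L ξ y) (hL : L ⊆ L') :
    IsAnn L' ξ y :=
  ⟨h.hξ, h.hy, h.pξ, h.py, fun w hw => hL (h.mem w hw)⟩

lemma Good.mono {L L' : Set (ℂ × ℂ)} (h : Good L') (hL : L ⊆ L') : Good L :=
  fun ξ y hh => h ξ y (hh.mono hL)

/-- if `exp ∘ ξ` is constant on a nonempty open subset of the strip then there is a contradiction -/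
lemma no_const {ξ : ℂ → ℂ} (hξ : DifferentiableOn ℂ ξ strip)
    (pξ : ∀ w ∈ strip, ξ (w + 2 * π * I) = ξ w + 2 * π * I) {U : Set ℂ} (hU : IsOpen U)
    (hUs : U ⊆ strip) (hne : U.Nonempty) (a : ℂ) (h : ∀ w ∈ U, exp (ξ w) = a) : False := by
  have hpre : IsPreconnected strip := convex_strip.isPreconnected
  have hd : ∀ w ∈ U, deriv ξ w = 0 := by
    intro w hw
    have h1 : HasDerivAt ξ (deriv ξ w) w :=
      ((hξ w (hUs hw)).differentiableAt (isOpen_strip.mem_nhds (hUs hw))).hasDerivAt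
    have h2 : HasDerivAt (fun w => exp (ξ w)) (exp (ξ w) * deriv ξ w) w := h1.cexp
    have h3 : (fun w => exp (ξ w)) =ᶠ[𝓝 w] fun _ => a := by
      filter_upwards [hU.mem_nhds hw] with z hz using h z hz
    have h4 : HasDerivAt (fun w => exp (ξ w)) 0 w := (hasDerivAt_const w a).congr_of_eventuallyEq h3
    have h5 := h2.unique h4
    rcases mul_eq_zero.mp h5 with h6 | h6
    · exact absurd h6 (exp_ne_zero _)
    · exact h6
  have han : AnalyticOnNhd ℂ (deriv ξ) strip := (hξ.analyticOnNhd isOpen_strip).deriv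
  obtain ⟨w₀, hw₀⟩ := hne
  have hev : deriv ξ =ᶠ[𝓝 w₀] 0 := by
    filter_upwards [hU.mem_nhds hw₀] with z hz using hd z hz
  have hz := han.eqOn_zero_of_preconnected_of_eventuallyEq_zero hpre (hUs hw₀) hev
  have h0 := isOpen_strip.is_const_of_deriv_eq_zero hpre hξ hz (add_mem_strip zero_mem_strip)
    zero_mem_strip
  have h1 := pξ 0 zero_mem_strip
  rw [h0] at h1
  have h2 : (2 * π * I : ℂ) = 0 := by
    have := sub_eq_zero.mpr h1
    simpa using this
  exact Complex.two_pi_I_ne_zero h2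

/-- Circle: no annulus in the unit circle. -/
lemma good_circle : Good ((fun x : ℂ => (x, (0 : ℂ))) '' sphere 0 1) := by
  intro ξ y h
  have hnorm : ∀ w ∈ strip, ‖exp (ξ w)‖ = 1 := by
    intro w hw
    obtain ⟨x, hx, hx2⟩ := h.mem w hw
    have : x = exp (ξ w) := (Prod.ext_iff.mp hx2).1
    rw [← this]
    simpa using hx
  have hd : DifferentiableOn ℂ (fun w => exp (ξ w)) strip := h.hξ.cexp
  have hmax : IsMaxOn (norm ∘ fun w => exp (ξ w)) strip 0 := by
    intro w hw
    simp [hnorm w hw, hnorm 0 zero_mem_strip]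
  have hc := Complex.eqOn_of_isPreconnected_of_isMaxOn_norm convex_strip.isPreconnected
    isOpen_strip hd zero_mem_strip hmax
  exact no_const h.hξ h.pξ isOpen_strip subset_rfl ⟨0, zero_mem_strip⟩ _ hc

end Pool.Agent.H46.Oka
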