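import Mathlib
import Pool.Agent.H46.Oka.Annulus

set_option autoImplicit false

open Metric Set Filter Complex
open scoped Topology Real

namespace Pool.Agent.H46.Oka

/-- algebraic dependence of two polynomials -/
lemma exists_relation (P Q : Polynomial ℂ) :
    ∃ (N : ℕ) (c : Fin (N + 1) × Fin (N + 1) → ℂ), c ≠ 0 ∧
      ∀ z : ℂ, ∑ p, c p * (P.eval z) ^ (p.1 : ℕ) * (Q.eval z) ^ (p.2 : ℕ) = 0 := by
  set N := P.natDegree + Q.natDegree + 1 with hN
  refine ⟨N, ?_⟩
  let G : (Fin (N + 1) × Fin (N + 1) → ℂ) →ₗ[ℂ] Polynomial ℂ :=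
    Fintype.linearCombination ℂ (fun p => P ^ (p.1 : ℕ) * Q ^ (p.2 : ℕ))
  let T : (Fin (N + 1) × Fin (N + 1) → ℂ) →ₗ[ℂ] (Fin (N * N + 1) → ℂ) :=
    LinearMap.pi (fun k => (Polynomial.lcoeff ℂ (k : ℕ)) ∘ₗ G)
  have hfin : Module.finrank ℂ (Fin (N * N + 1) → ℂ) <
      Module.finrank ℂ (Fin (N + 1) × Fin (N + 1) → ℂ) := by
    simp only [Module.finrank_fintype_fun_eq_card, Fintype.card_fin, Fintype.card_prod]
    nlinarith [Nat.zero_le N]
  have hker := LinearMap.ker_ne_bot_of_finrank_lt (f := T) hfin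
  obtain ⟨c, hc, hc0⟩ := Submodule.exists_mem_ne_zero_of_ne_bot hker
  refine ⟨c, hc0, ?_⟩
  have hGc : G c = 0 := by
    have hdeg : (G c).natDegree ≤ N * N := by
      simp only [G, Fintype.linearCombination_apply]
      refine Polynomial.natDegree_sum_le_of_forall_le _ _ fun p _ => ?_
      refine (Polynomial.natDegree_smul_le _ _).trans ?_
      refine (Polynomial.natDegree_mul_le).trans ?_
      have h1 : (P ^ (p.1 : ℕ)).natDegree ≤ N * P.natDegree := by
        refine (Polynomial.natDegree_pow_le).trans ?_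
        exact Nat.mul_le_mul_right _ (Nat.lt_succ_iff.mp p.1.2)
      have h2 : (Q ^ (p.2 : ℕ)).natDegree ≤ N * Q.natDegree := by
        refine (Polynomial.natDegree_pow_le).trans ?_
        exact Nat.mul_le_mul_right _ (Nat.lt_succ_iff.mp p.2.2)
      calc _ ≤ N * P.natDegree + N * Q.natDegree := add_le_add h1 h2
        _ = N * (P.natDegree + Q.natDegree) := by ring
        _ ≤ N * N := Nat.mul_le_mul_left _ (by omega)
    ext k
    rw [Polynomial.coeff_zero]
    by_cases hk : k < N * N + 1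
    · have := congrFun (LinearMap.mem_ker.mp hc) ⟨k, hk⟩
      simpa [T] using this
    · exact Polynomial.coeff_eq_zero_of_natDegree_lt (by omega)
  intro z
  have := congrArg (Polynomial.eval z) hGc
  simp only [G, Fintype.linearCombination_apply, Polynomial.eval_finset_sum,
    Polynomial.eval_smul, Polynomial.eval_mul, Polynomial.eval_pow, Polynomial.eval_zero,
    smul_eq_mul] at this
  rw [← this]
  exact Finset.sum_congr rfl fun p _ => by ring

/-- The curve `(exp P, Q)`. -/
noncomputable def curve (P Q : Polynomial ℂ) (z : ℂ) : ℂ × ℂ := (exp (P.eval z), Q.eval z)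

/-- **Identity step**: adding a curve `(exp P, Q)` with `Q` nonconstant creates no annulus of degree
one. -/
lemma Good.union_curve {L : Set (ℂ × ℂ)} (hL : IsClosed L) (hgood : Good L)
    (P Q : Polynomial ℂ) (hQ : 1 ≤ Q.natDegree) : Good (L ∪ range (curve P Q)) := by
  intro ξ y h
  have hpre : IsPreconnected strip := convex_strip.isPreconnected
  have hξc : ContinuousOn ξ strip := h.hξ.continuousOn
  have hyc : ContinuousOn y strip := h.hy.continuousOn
  -- a point outside of `L`
  obtain ⟨w₀, hw₀, hw₀L⟩ : ∃ w₀ ∈ strip, (exp (ξ w₀), y w₀) ∉ L := by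
    by_contra hcon
    push Not at hcon
    exact hgood ξ y ⟨h.hξ, h.hy, h.pξ, h.py, hcon⟩
  have hgc : ContinuousOn (fun w => (exp (ξ w), y w)) strip := hξc.cexp.prodMk hyc
  obtain ⟨r, hr, hrs, hrL⟩ : ∃ r > 0, closedBall w₀ r ⊆ strip ∧
      ∀ w ∈ closedBall w₀ r, (exp (ξ w), y w) ∉ L := by
    have h1 : ∀ᶠ w in 𝓝 w₀, (exp (ξ w), y w) ∉ L := by
      have := (hgc.continuousAt (isOpen_strip.mem_nhds hw₀)).eventually
        (hL.isOpen_compl.mem_nhds hw₀L)
      exact this
    have h2 : ∀ᶠ w in 𝓝 w₀, w ∈ strip := isOpen_strip.mem_nhds hw₀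
    obtain ⟨r, hr, hr2⟩ := Metric.nhds_basis_closedBall.mem_iff.mp (h1.and h2)
    exact ⟨r, hr, fun w hw => (hr2 hw).2, fun w hw => (hr2 hw).1⟩
  have hcur : ∀ w ∈ closedBall w₀ r, ∃ ζ : ℂ, exp (P.eval ζ) = exp (ξ w) ∧ Q.eval ζ = y w := by
    intro w hw
    rcases h.mem w (hrs hw) with h1 | ⟨ζ, hζ⟩
    · exact absurd h1 (hrL w hw)
    · exact ⟨ζ, (Prod.ext_iff.mp hζ).1, (Prod.ext_iff.mp hζ).2⟩
  obtain ⟨N, c, hc0, hrel⟩ := exists_relation P Q
  -- the function attached to the integer `k`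
  set Φ : ℂ → ℂ → ℂ := fun s t => ∑ p, c p * s ^ (p.1 : ℕ) * t ^ (p.2 : ℕ) with hΦ
  have hΦd : ∀ k : ℤ, DifferentiableOn ℂ (fun w => Φ (ξ w - 2 * π * I * k) (y w)) strip := by
    intro k
    simp only [hΦ]
    refine DifferentiableOn.fun_sum fun p _ => ?_
    exact (((h.hξ.sub_const _).pow _).const_mul _).mul (h.hy.pow _)
  have hex : ∀ w ∈ closedBall w₀ r, ∃ k : ℤ, Φ (ξ w - 2 * π * I * k) (y w) = 0 := by
    intro w hw
    obtain ⟨ζ, h1, h2⟩ := hcur w hw
    obtain ⟨n, hn⟩ := Complex.exp_eq_exp_iff_exists_int.mp h1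
    refine ⟨-n, ?_⟩
    have : ξ w - 2 * π * I * ((-n : ℤ) : ℂ) = P.eval ζ := by
      rw [hn]; push_cast; ring
    rw [this, ← h2]
    exact hrel ζ
  -- Baire
  obtain ⟨k, hk⟩ : ∃ k : ℤ, (interior {w ∈ closedBall w₀ r | Φ (ξ w - 2 * π * I * k) (y w) = 0}
      ∩ ball w₀ r).Nonempty := by
    let f : Option ℤ → Set ℂ := fun o => match o with
      | none => (ball w₀ r)ᶜ
      | some k => {w ∈ closedBall w₀ r | Φ (ξ w - 2 * π * I * k) (y w) = 0}
    have hf : ∀ o, IsClosed (f o) := by
      intro o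
      match o with
      | none => exact isOpen_ball.isClosed_compl
      | some k =>
        have : f (some k) = closedBall w₀ r ∩ (fun w => Φ (ξ w - 2 * π * I * k) (y w)) ⁻¹' {0} := by
          ext w; simp [f]
        rw [this]
        exact ((hΦd k).continuousOn.mono hrs).preimage_isClosed_of_isClosed isClosed_closedBall
          isClosed_singleton
    have hU : ⋃ o, f o = univ := by
      refine eq_univ_of_forall fun w => ?_
      by_cases hw : w ∈ ball w₀ r
      · obtain ⟨k, hk⟩ := hex w (ball_subset_closedBall hw)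
        exact mem_iUnion.mpr ⟨some k, ball_subset_closedBall hw, hk⟩
      · exact mem_iUnion.mpr ⟨none, hw⟩
    have hd := dense_iUnion_interior_of_closed hf hU
    obtain ⟨w, hw1, hw2⟩ := hd.inter_open_nonempty _ isOpen_ball ⟨w₀, mem_ball_self hr⟩
    obtain ⟨o, ho⟩ := mem_iUnion.mp hw2
    match o with
    | none =>
      exfalso
      have : w ∈ (ball w₀ r)ᶜ := interior_subset ho
      exact this hw1
    | some k => exact ⟨k, w, ho, hw1⟩
  obtain ⟨w₁, hw₁, hw₁b⟩ := hk
  have hw₁s : w₁ ∈ strip := hrs (ball_subset_closedBall hw₁b)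
  have hzero : ∀ w ∈ strip, Φ (ξ w - 2 * π * I * k) (y w) = 0 := by
    have hev : (fun w => Φ (ξ w - 2 * π * I * k) (y w)) =ᶠ[𝓝 w₁] 0 := by
      filter_upwards [isOpen_interior.mem_nhds hw₁] with z hz
      exact (interior_subset hz).2
    exact ((hΦd k).analyticOnNhd isOpen_strip).eqOn_zero_of_preconnected_of_eventuallyEq_zero
      hpre hw₁s hev
  -- periodicity
  have hper : ∀ (m : ℕ), ∀ w ∈ strip, w + 2 * π * I * m ∈ strip ∧
      ξ (w + 2 * π * I * m) = ξ w + 2 * π * I * m ∧ y (w + 2 * π * I * m) = y w := by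
    intro m
    induction m with
    | zero => intro w hw; simpa using hw
    | succ m ih =>
      intro w hw
      obtain ⟨h1, h2, h3⟩ := ih w hw
      have he : w + 2 * π * I * ((m + 1 : ℕ) : ℂ) = (w + 2 * π * I * m) + 2 * π * I := by
        push_cast; ring
      refine ⟨?_, ?_, ?_⟩
      · rw [he]; exact add_mem_strip h1
      · rw [he, h.pξ _ h1, h2]; push_cast; ring
      · rw [he, h.py _ h1, h3]
  have hinf : ∀ w ∈ strip, ∀ m : ℕ, Φ (ξ w + 2 * π * I * m - 2 * π * I * k) (y w) = 0 := by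
    intro w hw m
    obtain ⟨h1, h2, h3⟩ := hper m w hw
    have := hzero _ h1
    rwa [h2, h3] at this
  -- coefficients in the first variable vanish
  have hcoef : ∀ w ∈ strip, ∀ i : Fin (N + 1), ∑ j : Fin (N + 1), c (i, j) * (y w) ^ (j : ℕ) = 0 := by
    intro w hw
    set q : Polynomial ℂ := ∑ i : Fin (N + 1),
      Polynomial.C (∑ j : Fin (N + 1), c (i, j) * (y w) ^ (j : ℕ)) * Polynomial.X ^ (i : ℕ) with hq
    have hqe : ∀ s, q.eval s = Φ s (y w) := by
      intro s
      simp only [hq, hΦ, Polynomial.eval_finset_sum, Polynomial.eval_mul, Polynomial.eval_C,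
        Polynomial.eval_pow, Polynomial.eval_X, Fintype.sum_prod_type, Finset.sum_mul]
      exact Finset.sum_congr rfl fun i _ => Finset.sum_congr rfl fun j _ => by ring
    have hq0 : q = 0 := by
      refine Polynomial.eq_zero_of_infinite_isRoot q ?_
      have hinj : Function.Injective (fun m : ℕ => ξ w + 2 * π * I * m - 2 * π * I * k) := by
        intro a b hab
        simp only [sub_left_inj, add_right_inj] at hab
        have := mul_left_cancel₀ Complex.two_pi_I_ne_zero hab
        exact_mod_cast this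
      refine (Set.infinite_range_of_injective hinj).mono ?_
      rintro _ ⟨m, rfl⟩
      show q.IsRoot _
      rw [Polynomial.IsRoot, hqe]
      exact hinf w hw m
    intro i
    have h1 : q.coeff (i : ℕ) = ∑ j : Fin (N + 1), c (i, j) * (y w) ^ (j : ℕ) := by
      simp only [hq, Polynomial.finset_sum_coeff, Polynomial.coeff_C_mul, Polynomial.coeff_X_pow]
      rw [Finset.sum_eq_single i]
      · simp
      · intro b _ hb
        have : (i : ℕ) ≠ (b : ℕ) := fun hh => hb (Fin.ext hh.symm)
        simp [this]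
      · simp
    rw [← h1, hq0, Polynomial.coeff_zero]
  -- `y` takes finitely many values
  obtain ⟨⟨i₀, j₀⟩, hij⟩ : ∃ p, c p ≠ 0 := by
    by_contra hcon
    push Not at hcon
    exact hc0 (funext hcon)
  set q : Polynomial ℂ := ∑ j : Fin (N + 1), Polynomial.C (c (i₀, j)) * Polynomial.X ^ (j : ℕ) with hq
  have hq0 : q ≠ 0 := by
    intro hh
    apply hij
    have h1 : q.coeff (j₀ : ℕ) = c (i₀, j₀) := by
      simp only [hq, Polynomial.finset_sum_coeff, Polynomial.coeff_C_mul, Polynomial.coeff_X_pow]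
      rw [Finset.sum_eq_single j₀]
      · simp
      · intro b _ hb
        have : (j₀ : ℕ) ≠ (b : ℕ) := fun hh => hb (Fin.ext hh.symm)
        simp [this]
      · simp
    rw [← h1, hh, Polynomial.coeff_zero]
  have hyroot : ∀ w ∈ strip, y w ∈ (q.roots.toFinset : Set ℂ) := by
    intro w hw
    rw [Finset.mem_coe, Multiset.mem_toFinset, Polynomial.mem_roots hq0, Polynomial.IsRoot]
    simp only [hq, Polynomial.eval_finset_sum, Polynomial.eval_mul, Polynomial.eval_C,
      Polynomial.eval_pow, Polynomial.eval_X]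
    exact hcoef w hw i₀
  have hyconst : ∀ w ∈ strip, y w = y w₀ := by
    intro w hw
    exact hpre.constant_of_mapsTo (Finset.finite_toSet _).isDiscrete hyc hyroot hw hw₀
  -- hence `exp ξ` takes finitely many values on the ball
  have hQ0 : Q - Polynomial.C (y w₀) ≠ 0 := by
    intro hh
    have : Q = Polynomial.C (y w₀) := sub_eq_zero.mp hh
    rw [this] at hQ
    simp at hQ
  set A : Finset ℂ := (Q - Polynomial.C (y w₀)).roots.toFinset.image (fun ζ => exp (P.eval ζ))
  have hA : ∀ w ∈ ball w₀ r, exp (ξ w) ∈ (A : Set ℂ) := by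
    intro w hw
    obtain ⟨ζ, h1, h2⟩ := hcur w (ball_subset_closedBall hw)
    simp only [A, Finset.coe_image, Set.mem_image, Finset.mem_coe, Multiset.mem_toFinset,
      Polynomial.mem_roots hQ0, Polynomial.IsRoot]
    refine ⟨ζ, ?_, h1⟩
    rw [Polynomial.eval_sub, Polynomial.eval_C, h2, hyconst w (hrs (ball_subset_closedBall hw)),
      sub_self]
  have hconst : ∀ w ∈ ball w₀ r, exp (ξ w) = exp (ξ w₀) := by
    intro w hw
    exact (convex_ball w₀ r).isPreconnected.constant_of_mapsTo (Finset.finite_toSet A).isDiscrete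
      (hξc.cexp.mono (ball_subset_closedBall.trans hrs)) hA hw (mem_ball_self hr)
  exact no_const h.hξ h.pξ isOpen_ball (ball_subset_closedBall.trans hrs) ⟨w₀, mem_ball_self hr⟩
    _ hconst

end Pool.Agent.H46.Oka
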