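import Mathlib
import Pool.Agent.H46.Oka.Annulus

set_option autoImplicit false

open Metric Set Filter Complex
open scoped Topology Real

namespace Pool.Agent.H46.Oka

/-- An elementary form of Montel's theorem on the strip, with limits along an ultrafilter. -/
lemma exists_limit (F : ℕ → ℂ → ℂ) (hd : ∀ n, DifferentiableOn ℂ (F n) strip)
    (hL : ∀ s : ℝ, s < 1 → ∃ K : ℝ, 0 ≤ K ∧ ∀ (n : ℕ) (z w : ℂ), |z.re| ≤ s → |w.re| ≤ s →
      ‖F n z - F n w‖ ≤ K * ‖z - w‖)
    (hB : ∃ B : ℝ, ∀ n, ‖F n 0‖ ≤ B) :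
    ∃ G : ℂ → ℂ, DifferentiableOn ℂ G strip ∧
      ∀ w ∈ strip, Tendsto (fun n => F n w) (hyperfilter ℕ : Filter ℕ) (𝓝 (G w)) := by
  obtain ⟨B, hB⟩ := hB
  have hpt : ∀ w : ℂ, ∃ g : ℂ, w ∈ strip →
      Tendsto (fun n => F n w) (hyperfilter ℕ : Filter ℕ) (𝓝 g) := by
    intro w
    by_cases hw : w ∈ strip
    · obtain ⟨K, hK0, hK⟩ := hL |w.re| hw
      have hbd : ∀ n, F n w ∈ closedBall (0 : ℂ) (B + K * ‖w‖) := by
        intro n
        rw [mem_closedBall_zero_iff]
        have h1 := hK n w 0 le_rfl (by simp)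
        rw [sub_zero] at h1
        calc ‖F n w‖ = ‖F n 0 + (F n w - F n 0)‖ := by congr 1; ring
          _ ≤ ‖F n 0‖ + ‖F n w - F n 0‖ := norm_add_le _ _
          _ ≤ B + K * ‖w‖ := add_le_add (hB n) h1
      have hc : IsCompact (closedBall (0 : ℂ) (B + K * ‖w‖)) := isCompact_closedBall _ _
      obtain ⟨g, -, hg⟩ := hc.ultrafilter_le_nhds' ((hyperfilter ℕ).map (fun n => F n w))
        (by
          rw [Ultrafilter.mem_map]
          exact Filter.mem_of_superset Filter.univ_mem fun n _ => hbd n)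
      exact ⟨g, fun _ => hg⟩
    · exact ⟨0, fun h => absurd h hw⟩
  choose G hG using hpt
  refine ⟨G, ?_, hG⟩
  have hloc : TendstoLocallyUniformlyOn F G (hyperfilter ℕ : Filter ℕ) strip := by
    rw [Metric.tendstoLocallyUniformlyOn_iff]
    intro ε hε x hx
    have hx1 : |x.re| < 1 := hx
    set s : ℝ := (1 + |x.re|) / 2 with hs
    have hs1 : s < 1 := by rw [hs]; linarith
    obtain ⟨K, hK0, hK⟩ := hL s hs1
    have hGL : ∀ z w : ℂ, |z.re| ≤ s → |w.re| ≤ s → ‖G z - G w‖ ≤ K * ‖z - w‖ := by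
      intro z w hz hw
      have h1 := (hG z (lt_of_le_of_lt hz hs1)).sub (hG w (lt_of_le_of_lt hw hs1))
      exact le_of_tendsto' h1.norm fun n => hK n z w hz hw
    set ρ : ℝ := min ((1 - |x.re|) / 2) (ε / (3 * (K + 1))) with hρ
    have hρ0 : 0 < ρ := by
      rw [hρ]
      refine lt_min (by linarith) (by positivity)
    have hre : ∀ z ∈ ball x ρ, |z.re| ≤ s := by
      intro z hz
      have h1 : |z.re - x.re| ≤ ‖z - x‖ := by
        rw [← Complex.sub_re]; exact Complex.abs_re_le_norm _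
      have h2 : ‖z - x‖ < ρ := by rwa [← dist_eq_norm]
      have h3 : ρ ≤ (1 - |x.re|) / 2 := min_le_left _ _
      have h4 : |z.re| ≤ |x.re| + |z.re - x.re| := by
        calc |z.re| = |x.re + (z.re - x.re)| := by congr 1; ring
          _ ≤ _ := abs_add_le _ _
      rw [hs]; linarith
    have hxs : |x.re| ≤ s := by rw [hs]; linarith
    refine ⟨ball x ρ, mem_nhdsWithin_of_mem_nhds (ball_mem_nhds x hρ0), ?_⟩
    have hev : ∀ᶠ n in (hyperfilter ℕ : Filter ℕ), dist (F n x) (G x) < ε / 3 :=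
      (Metric.tendsto_nhds.mp (hG x hx)) _ (by linarith)
    filter_upwards [hev] with n hn z hz
    have hKρ : K * ρ ≤ ε / 3 := by
      have h1 : ρ ≤ ε / (3 * (K + 1)) := min_le_right _ _
      calc K * ρ ≤ (K + 1) * (ε / (3 * (K + 1))) := by
            apply mul_le_mul (by linarith) h1 hρ0.le (by linarith)
        _ = ε / 3 := by field_simp
    have hzx : ‖z - x‖ < ρ := by rw [← dist_eq_norm]; exact hz
    have h1 : ‖G z - G x‖ ≤ K * ρ :=
      (hGL z x (hre z hz) hxs).trans (mul_le_mul_of_nonneg_left hzx.le hK0)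
    have h2 : ‖F n x - F n z‖ ≤ K * ρ := by
      refine (hK n x z hxs (hre z hz)).trans (mul_le_mul_of_nonneg_left ?_ hK0)
      rw [norm_sub_rev]; exact hzx.le
    have h3 : ‖G x - F n x‖ < ε / 3 := by rw [norm_sub_rev, ← dist_eq_norm]; exact hn
    rw [dist_eq_norm]
    calc ‖G z - F n z‖ = ‖(G z - G x) + (G x - F n x) + (F n x - F n z)‖ := by congr 1; ring
      _ ≤ ‖G z - G x‖ + ‖G x - F n x‖ + ‖F n x - F n z‖ := norm_add₃_le
      _ < ε := by linarith
  exact hloc.differentiableOn (Filter.Eventually.of_forall hd) isOpen_strip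

/-- Lipschitz estimate on smaller strips. -/
lemma lip_of_bound {f : ℂ → ℂ} (hf : DifferentiableOn ℂ f strip) {M : ℝ}
    (hM : ∀ w ∈ strip, ‖f w‖ ≤ M) {w : ℂ} {s : ℝ} (hs : s < 1) (hw : |w.re| ≤ s) :
    ‖deriv f w‖ ≤ M / ((1 - s) / 2) := by
  have hρ : 0 < (1 - s) / 2 := by linarith
  have hsub : closedBall w ((1 - s) / 2) ⊆ strip := by
    intro z hz
    have h1 : |z.re - w.re| ≤ ‖z - w‖ := by
      rw [← Complex.sub_re]; exact Complex.abs_re_le_norm _
    have h2 : ‖z - w‖ ≤ (1 - s) / 2 := by rwa [← dist_eq_norm]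
    have h4 : |z.re| ≤ |w.re| + |z.re - w.re| := by
      calc |z.re| = |w.re + (z.re - w.re)| := by congr 1; ring
        _ ≤ _ := abs_add_le _ _
    show |z.re| < 1
    linarith
  refine Complex.norm_deriv_le_of_forall_mem_sphere_norm_le hρ ?_ fun z hz =>
    hM z (hsub (sphere_subset_closedBall hz))
  exact (hf.mono hsub).diffContOnCl_ball subset_rfl

lemma convex_substrip (s : ℝ) : Convex ℝ {w : ℂ | |w.re| ≤ s} := by
  have : {w : ℂ | |w.re| ≤ s} = Complex.reLm ⁻¹' (Icc (-s) s) := by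
    ext w; simp [abs_le]
  rw [this]
  exact (convex_Icc _ _).linear_preimage _

/-- **Compactness step**: a compact set of `ℂ* × ℂ` without annuli of degree one has a
neighbourhood without annuli of degree one. -/
lemma Good.thicken {L : Set (ℂ × ℂ)} (hL : IsCompact L) (h0 : ∀ p ∈ L, p.1 ≠ 0)
    (hgood : Good L) :
    ∃ δ > 0, (∀ p ∈ cthickening δ L, p.1 ≠ 0) ∧ Good (cthickening δ L) := by
  have hopen : IsOpen {p : ℂ × ℂ | p.1 ≠ 0} := isOpen_ne_fun continuous_fst continuous_const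
  obtain ⟨δ₀, hδ₀, hsub⟩ := hL.exists_cthickening_subset_open hopen h0
  have hcomp : IsCompact (cthickening δ₀ L) := hL.cthickening
  obtain ⟨C, hC⟩ := hcomp.exists_bound_of_continuousOn (f := fun p : ℂ × ℂ => p.1⁻¹)
    (ContinuousOn.inv₀ continuous_fst.continuousOn fun p hp => hsub hp)
  obtain ⟨M, hM⟩ := hcomp.exists_bound_of_continuousOn (f := fun p : ℂ × ℂ => p)
    continuousOn_id
  by_contra hcon
  push Not at hcon
  have hex : ∀ n : ℕ, ∃ ξ y : ℂ → ℂ, IsAnn (cthickening (min δ₀ (1 / (n + 1))) L) ξ y := by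
    intro n
    have hδ : 0 < min δ₀ (1 / ((n : ℝ) + 1)) := lt_min hδ₀ (by positivity)
    have h1 := hcon _ hδ fun p hp => hsub (cthickening_mono (min_le_left _ _) L hp)
    rw [Good] at h1
    push Not at h1
    exact h1
  choose ξ₀ y hann using hex
  -- normalisation
  set k : ℕ → ℤ := fun n => ⌊(ξ₀ n 0).im / (2 * π)⌋ with hk
  set ξ : ℕ → ℂ → ℂ := fun n w => ξ₀ n w - k n * (2 * π * I) with hξdef
  have hexp : ∀ n w, exp (ξ n w) = exp (ξ₀ n w) := by
    intro n w
    simp only [hξdef]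
    rw [Complex.exp_sub, Complex.exp_int_mul_two_pi_mul_I, div_one]
  have hA : ∀ n : ℕ, IsAnn (cthickening (min δ₀ (1 / ((n : ℝ) + 1))) L) (ξ n) (y n) := by
    intro n
    refine ⟨(hann n).hξ.sub_const _, (hann n).hy, ?_, (hann n).py, ?_⟩
    · intro w hw
      simp only [hξdef]
      rw [(hann n).pξ w hw]; ring
    · intro w hw
      rw [hexp]
      exact (hann n).mem w hw
  have hmem₀ : ∀ n, ∀ w ∈ strip, (exp (ξ n w), y n w) ∈ cthickening δ₀ L := fun n w hw =>
    cthickening_mono (min_le_left _ _) L ((hA n).mem w hw)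
  have hMx : ∀ n, ∀ w ∈ strip, ‖exp (ξ n w)‖ ≤ M := fun n w hw =>
    (norm_fst_le (exp (ξ n w), y n w)).trans (hM _ (hmem₀ n w hw))
  have hMy : ∀ n, ∀ w ∈ strip, ‖y n w‖ ≤ M := fun n w hw =>
    (norm_snd_le (exp (ξ n w), y n w)).trans (hM _ (hmem₀ n w hw))
  have hCx : ∀ n, ∀ w ∈ strip, ‖(exp (ξ n w))⁻¹‖ ≤ C := fun n w hw => hC _ (hmem₀ n w hw)
  have hM0 : 0 ≤ M := (norm_nonneg _).trans (hMx 0 0 zero_mem_strip)
  have hC0 : 0 ≤ C := (norm_nonneg _).trans (hCx 0 0 zero_mem_strip)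
  have hdiffAt : ∀ {f : ℂ → ℂ}, DifferentiableOn ℂ f strip → ∀ w : ℂ, |w.re| < 1 →
      DifferentiableAt ℂ f w := fun hf w hw =>
    (hf w hw).differentiableAt (isOpen_strip.mem_nhds hw)
  -- limits
  obtain ⟨Y, hYd, hYlim⟩ := exists_limit y (fun n => (hA n).hy) (by
    intro s hs
    refine ⟨M / ((1 - s) / 2), div_nonneg hM0 (by linarith), fun n z w hz hw => ?_⟩
    exact (convex_substrip s).norm_image_sub_le_of_norm_deriv_le
      (fun x hx => hdiffAt (hA n).hy x (lt_of_le_of_lt hx hs))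
      (fun x hx => lip_of_bound (hA n).hy (hMy n) hs hx) hw hz) ⟨M, fun n => hMy n 0 zero_mem_strip⟩
  obtain ⟨Ξ, hΞd, hΞlim⟩ := exists_limit ξ (fun n => (hA n).hξ) (by
    intro s hs
    refine ⟨M / ((1 - s) / 2) * C, mul_nonneg (div_nonneg hM0 (by linarith)) hC0,
      fun n z w hz hw => ?_⟩
    refine (convex_substrip s).norm_image_sub_le_of_norm_deriv_le
      (fun x hx => hdiffAt (hA n).hξ x (lt_of_le_of_lt hx hs)) (fun x hx => ?_) hw hz
    have hxs : x ∈ strip := lt_of_le_of_lt hx hs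
    have h1 : HasDerivAt (ξ n) (deriv (ξ n) x) x := (hdiffAt (hA n).hξ x hxs).hasDerivAt
    have h2 := h1.cexp.deriv
    have h3 : deriv (ξ n) x = deriv (fun w => exp (ξ n w)) x * (exp (ξ n x))⁻¹ := by
      rw [h2]
      field_simp [exp_ne_zero (ξ n x)]
    rw [h3, norm_mul]
    exact mul_le_mul (lip_of_bound (hA n).hξ.cexp (hMx n) hs hx) (hCx n x hxs)
      (norm_nonneg _) (div_nonneg hM0 (by linarith))) (by
    refine ⟨|Real.log C| + |Real.log M| + 2 * π, fun n => ?_⟩
    have hre : |(ξ n 0).re| ≤ |Real.log C| + |Real.log M| := by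
      have h1 := hMx n 0 zero_mem_strip
      have h2 := hCx n 0 zero_mem_strip
      rw [norm_inv, Complex.norm_exp, ← Real.exp_neg] at h2
      rw [Complex.norm_exp] at h1
      have h3 : (ξ n 0).re ≤ Real.log M := (Real.le_log_iff_exp_le (lt_of_lt_of_le
        (Real.exp_pos _) h1)).mpr h1
      have h4 : -(ξ n 0).re ≤ Real.log C := (Real.le_log_iff_exp_le (lt_of_lt_of_le
        (Real.exp_pos _) h2)).mpr h2
      rw [abs_le]
      constructor
      · have := le_abs_self (Real.log C); have := abs_nonneg (Real.log M); linarith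
      · have := le_abs_self (Real.log M); have := abs_nonneg (Real.log C); linarith
    have him : |(ξ n 0).im| ≤ 2 * π := by
      have h5 : (ξ n 0).im = (ξ₀ n 0).im - k n * (2 * π) := by
        simp [hξdef]
      have h6 : (k n : ℝ) ≤ (ξ₀ n 0).im / (2 * π) := Int.floor_le _
      have h7 : (ξ₀ n 0).im / (2 * π) < k n + 1 := Int.lt_floor_add_one _
      have hpi : 0 < 2 * π := by positivity
      rw [le_div_iff₀ hpi] at h6
      rw [div_lt_iff₀ hpi] at h7
      rw [h5, abs_le]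
      constructor <;> nlinarith
    exact (Complex.norm_le_abs_re_add_abs_im _).trans (by linarith))
  refine hgood Ξ Y ⟨hΞd, hYd, ?_, ?_, ?_⟩
  · intro w hw
    have h1 := hΞlim _ (add_mem_strip hw)
    have h2 := (hΞlim w hw).add_const (2 * π * I)
    refine tendsto_nhds_unique h1 (h2.congr fun n => ?_)
    exact ((hA n).pξ w hw).symm
  · intro w hw
    refine tendsto_nhds_unique (hYlim _ (add_mem_strip hw)) ((hYlim w hw).congr fun n => ?_)
    exact ((hA n).py w hw).symm
  · intro w hw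
    have hlim : Tendsto (fun n => (exp (ξ n w), y n w)) (hyperfilter ℕ : Filter ℕ)
        (𝓝 (exp (Ξ w), Y w)) := (hΞlim w hw).cexp.prodMk_nhds (hYlim w hw)
    have hcl : ∀ ε > 0, (exp (Ξ w), Y w) ∈ cthickening ε L := by
      intro ε hε
      refine isClosed_cthickening.mem_of_tendsto hlim ?_
      have hev : ∀ᶠ n : ℕ in atTop, 1 / ((n : ℝ) + 1) < ε := by
        have := tendsto_one_div_add_atTop_nhds_zero_nat (𝕜 := ℝ)
        exact this.eventually (gt_mem_nhds hε)
      have hev' : ∀ᶠ n : ℕ in (hyperfilter ℕ : Filter ℕ), 1 / ((n : ℝ) + 1) < ε :=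
        hev.filter_mono (by rw [← Nat.cofinite_eq_atTop]; exact hyperfilter_le_cofinite)
      filter_upwards [hev'] with n hn
      exact cthickening_mono ((min_le_right _ _).trans hn.le) L ((hA n).mem w hw)
    rw [← hL.isClosed.closure_eq, closure_eq_iInter_cthickening]
    exact mem_iInter₂.mpr hcl

end Pool.Agent.H46.Oka
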