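import Mathlib

set_option autoImplicit false

open Metric Set Filter Complex Polynomial
open scoped Topology Real

namespace Pool.Agent.H46.Oka

/-- A polynomial which is nonzero on `K` and whose zeros lie in a connected unbounded subset of the
complement of `K` can be inverted uniformly on `K` by polynomials. -/
lemma exists_inv_approx {K : Set ℂ} (hK : IsCompact K) (l : Set ℂ) (hl : IsPreconnected l)
    (hlK : l ⊆ Kᶜ) (hlu : ¬ Bornology.IsBounded l) (B : ℂ[X]) (hB0 : B ≠ 0)
    (hB : ∀ b, B.eval b = 0 → b ∈ l) {ε : ℝ} (hε : 0 < ε) :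
    ∃ p : ℂ[X], ∀ z ∈ K, ‖p.eval z - (B.eval z)⁻¹‖ < ε := by
  haveI : CompactSpace K := isCompact_iff_compactSpace.mp hK
  rcases K.eq_empty_or_nonempty with hKe | hKne
  · exact ⟨0, fun z hz => by simp [hKe] at hz⟩
  haveI : Nonempty K := hKne.to_subtype
  set S : Subalgebra ℂ C(K, ℂ) := (polynomialFunctions K).topologicalClosure with hS
  haveI hScl : IsClosed (S : Set C(K, ℂ)) := Subalgebra.isClosed_topologicalClosure _
  have hXmem : Polynomial.toContinuousMapOnAlgHom K X ∈ S :=
    Subalgebra.le_topologicalClosure _ ⟨X, by simp⟩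
  set x : S := ⟨Polynomial.toContinuousMapOnAlgHom K X, hXmem⟩ with hx
  have hval : ∀ p : ℂ[X], ((aeval x p : S) : C(K, ℂ)) = Polynomial.toContinuousMapOnAlgHom K p := by
    intro p
    have h1 : ((aeval x p : S) : C(K, ℂ)) = aeval (x : C(K, ℂ)) p := by
      exact (Polynomial.aeval_algHom_apply S.val x p).symm
    rw [h1, hx]
    show aeval (Polynomial.toContinuousMapOnAlgHom K X) p = _
    rw [Polynomial.aeval_algHom_apply, Polynomial.aeval_X_left_apply]
  -- spectrum of `x` in `C(K, ℂ)`
  have hspecK : spectrum ℂ (x : C(K, ℂ)) ⊆ K := by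
    intro a ha
    rw [ContinuousMap.spectrum_eq_range] at ha
    obtain ⟨z, hz⟩ := ha
    rw [← hz]
    simp [hx]
  have hspec : ∀ b ∈ spectrum ℂ x, B.eval b ≠ 0 := by
    intro b hb h0
    have hbl := hB b h0
    have h1 := Subalgebra.spectrum_isBounded_connectedComponentIn S x hb
    apply hlu
    refine h1.subset ?_
    exact hl.subset_connectedComponentIn hbl
      (hlK.trans (compl_subset_compl.mpr hspecK))
  haveI : CompleteSpace S := hScl.completeSpace_coe
  have hne : (spectrum ℂ x).Nonempty := spectrum.nonempty x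
  have hunit : IsUnit (aeval x B : S) := by
    have h0 : (0 : ℂ) ∉ spectrum ℂ (aeval x B : S) := by
      rw [spectrum.map_polynomial_aeval_of_nonempty x B hne]
      rintro ⟨b, hb, hb0⟩
      exact hspec b hb hb0
    exact spectrum.isUnit_of_zero_notMem ℂ h0
  obtain ⟨u, hu⟩ := hunit
  set v : S := (↑u⁻¹ : S) with hv
  have huv : (aeval x B : S) * v = 1 := by rw [← hu, hv]; exact u.mul_inv
  have hvz : ∀ z : K, (v : C(K, ℂ)) z = (B.eval (z : ℂ))⁻¹ := by
    intro z
    have h1 := congrArg (fun s : S => (s : C(K, ℂ)) z) huv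
    simp only [MulMemClass.coe_mul, hval, ContinuousMap.mul_apply, OneMemClass.coe_one,
      ContinuousMap.one_apply] at h1
    have h2 : (Polynomial.toContinuousMapOnAlgHom K B) z = B.eval (z : ℂ) := by simp
    rw [h2] at h1
    exact eq_inv_of_mul_eq_one_right h1
  have hvS : (v : C(K, ℂ)) ∈ closure (polynomialFunctions K : Set C(K, ℂ)) := by
    have := v.2
    rwa [← SetLike.mem_coe, Subalgebra.topologicalClosure_coe] at this
  obtain ⟨q, hq, hdist⟩ := Metric.mem_closure_iff.mp hvS ε hε
  obtain ⟨p, -, hp⟩ := hq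
  refine ⟨p, fun z hz => ?_⟩
  have h1 : dist ((v : C(K, ℂ)) ⟨z, hz⟩) (q ⟨z, hz⟩) < ε :=
    lt_of_le_of_lt (ContinuousMap.dist_apply_le_dist _) hdist
  rw [hvz, ← hp] at h1
  have h2 : (Polynomial.toContinuousMapOnAlgHom K p) ⟨z, hz⟩ = p.eval z := by simp
  rw [dist_comm, dist_eq_norm] at h1
  simpa using h1

end Pool.Agent.H46.Oka
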