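import Mathlib
import Pool.Agent.H46.Oka.Runge

set_option autoImplicit false

open Metric Set Filter Complex Polynomial
open scoped Topology Real

namespace Pool.Agent.H46.Oka

/-- Two disjoint compact convex sets can be separated by a polynomial which is close to `0` on the
first and close to `1` on the second. -/
lemma exists_chi {s t : Set ℂ} (hs : IsCompact s) (hsc : Convex ℝ s) (ht : IsCompact t)
    (htc : Convex ℝ t) (hst : Disjoint s t) (hsn : s.Nonempty) (htn : t.Nonempty)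
    {ε : ℝ} (hε : 0 < ε) :
    ∃ p : ℂ[X], (∀ z ∈ s, ‖p.eval z‖ < ε) ∧ ∀ z ∈ t, ‖p.eval z - 1‖ < ε := by
  obtain ⟨f, u, v, hfs, huv, hft⟩ :=
    RCLike.geometric_hahn_banach_compact_closed (𝕜 := ℂ) hsc hs htc ht.isClosed hst
  set lam : ℂ := f 1 with hlam
  have hf : ∀ z, f z = lam * z := by
    intro z
    have : f z = f (z • (1 : ℂ)) := by simp
    rw [this, map_smul, smul_eq_mul, mul_comm]
  set m : ℝ := (u + v) / 2 with hm
  set w : ℂ → ℂ := fun z => lam * z - m with hw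
  have hws : ∀ z ∈ s, (w z).re < 0 := by
    intro z hz
    have := hfs z hz
    rw [hf] at this
    simp only [hw, Complex.sub_re, Complex.ofReal_re]
    have h2 : RCLike.re (lam * z) = (lam * z).re := rfl
    rw [h2] at this
    rw [hm]; linarith
  have hwt : ∀ z ∈ t, 0 < (w z).re := by
    intro z hz
    have := hft z hz
    rw [hf] at this
    simp only [hw, Complex.sub_re, Complex.ofReal_re]
    have h2 : RCLike.re (lam * z) = (lam * z).re := rfl
    rw [h2] at this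
    rw [hm]; linarith
  have hlam0 : lam ≠ 0 := by
    intro h0
    obtain ⟨a, ha⟩ := hsn
    obtain ⟨b, hb⟩ := htn
    have h1 := hws a ha
    have h2 := hwt b hb
    simp only [hw, h0, zero_mul] at h1 h2
    linarith
  -- the separating line
  set l : Set ℂ := {z | (w z).re = 0} with hl
  have hlpre : IsPreconnected l := by
    have : Convex ℝ l := by
      intro a ha b hb p q hp hq hpq
      simp only [hl, hw, mem_setOf_eq, Complex.sub_re, Complex.ofReal_re, Complex.mul_re,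
        Complex.add_re, Complex.add_im, Complex.real_smul, Complex.ofReal_im, Complex.mul_im,
        zero_mul, sub_zero, add_zero] at ha hb ⊢
      have : m = p * m + q * m := by rw [← add_mul, hpq, one_mul]
      nlinarith [congrArg (fun x => p * x) ha, congrArg (fun x => q * x) hb]
    exact this.isPreconnected
  have hlK : l ⊆ (s ∪ t)ᶜ := by
    intro z hz hzst
    rcases hzst with h | h
    · exact absurd hz (hws z h).ne
    · exact absurd hz (hwt z h).ne'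
  have hlu : ¬ Bornology.IsBounded l := by
    intro hb
    obtain ⟨C, hC⟩ := hb.exists_norm_le
    have hmem : ∀ r : ℝ, (m + r * I) / lam ∈ l := by
      intro r
      simp only [hl, hw, mem_setOf_eq]
      rw [mul_div_cancel₀ _ hlam0]
      simp
    have h1 := hC _ (hmem (‖lam‖ * (C + 1)))
    have h2 : |((m : ℂ) + ((‖lam‖ * (C + 1) : ℝ) : ℂ) * I).im| ≤
        ‖(m : ℂ) + ((‖lam‖ * (C + 1) : ℝ) : ℂ) * I‖ := Complex.abs_im_le_norm _
    have h3 : ((m : ℂ) + ((‖lam‖ * (C + 1) : ℝ) : ℂ) * I).im = ‖lam‖ * (C + 1) := by simp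
    rw [h3] at h2
    rw [norm_div, div_le_iff₀ (norm_pos_iff.mpr hlam0)] at h1
    have h4 := le_abs_self (‖lam‖ * (C + 1))
    have h5 : 0 < ‖lam‖ := norm_pos_iff.mpr hlam0
    nlinarith
  set W : ℂ[X] := C lam * X - C (m : ℂ) with hW
  have hWe : ∀ z, W.eval z = w z := by intro z; simp [hW, hw]
  -- norms
  have hn1 : ∀ z, ‖1 + w z‖ ^ 2 = 1 + 2 * (w z).re + ‖w z‖ ^ 2 := by
    intro z
    rw [← Complex.normSq_eq_norm_sq, ← Complex.normSq_eq_norm_sq, Complex.normSq_add]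
    simp; ring
  have hn2 : ∀ z, ‖1 - w z‖ ^ 2 = 1 - 2 * (w z).re + ‖w z‖ ^ 2 := by
    intro z
    rw [← Complex.normSq_eq_norm_sq, ← Complex.normSq_eq_norm_sq, Complex.normSq_sub]
    simp; ring
  have hs_lt : ∀ z ∈ s, ‖1 + w z‖ < ‖1 - w z‖ := by
    intro z hz
    refine lt_of_pow_lt_pow_left₀ 2 (norm_nonneg _) ?_
    rw [hn1, hn2]
    linarith [hws z hz]
  have ht_lt : ∀ z ∈ t, ‖1 - w z‖ < ‖1 + w z‖ := by
    intro z hz
    refine lt_of_pow_lt_pow_left₀ 2 (norm_nonneg _) ?_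
    rw [hn1, hn2]
    linarith [hwt z hz]
  -- ratios
  have hwc : Continuous w := by
    simp only [hw]; fun_prop
  obtain ⟨θ, hθ0, hθ1, hθs, hθt⟩ : ∃ θ : ℝ, 0 ≤ θ ∧ θ < 1 ∧
      (∀ z ∈ s, ‖1 + w z‖ ≤ θ * ‖1 - w z‖) ∧ ∀ z ∈ t, ‖1 - w z‖ ≤ θ * ‖1 + w z‖ := by
    have h1 : ContinuousOn (fun z => ‖1 + w z‖ / ‖1 - w z‖) s := by
      refine ContinuousOn.div (by fun_prop) (by fun_prop) fun z hz => ?_
      exact (lt_of_le_of_lt (norm_nonneg _) (hs_lt z hz)).ne'
    have h2 : ContinuousOn (fun z => ‖1 - w z‖ / ‖1 + w z‖) t := by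
      refine ContinuousOn.div (by fun_prop) (by fun_prop) fun z hz => ?_
      exact (lt_of_le_of_lt (norm_nonneg _) (ht_lt z hz)).ne'
    obtain ⟨a, ha, hamax⟩ := hs.exists_isMaxOn hsn h1
    obtain ⟨b, hb, hbmax⟩ := ht.exists_isMaxOn htn h2
    refine ⟨max (‖1 + w a‖ / ‖1 - w a‖) (‖1 - w b‖ / ‖1 + w b‖), ?_, ?_, ?_, ?_⟩
    · exact le_max_of_le_left (by positivity)
    · refine max_lt ?_ ?_
      · rw [div_lt_one (lt_of_le_of_lt (norm_nonneg _) (hs_lt a ha))]; exact hs_lt a ha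
      · rw [div_lt_one (lt_of_le_of_lt (norm_nonneg _) (ht_lt b hb))]; exact ht_lt b hb
    · intro z hz
      have h3 : ‖1 + w z‖ / ‖1 - w z‖ ≤ ‖1 + w a‖ / ‖1 - w a‖ := hamax hz
      rw [← div_le_iff₀ (lt_of_le_of_lt (norm_nonneg _) (hs_lt z hz))]
      exact h3.trans (le_max_left _ _)
    · intro z hz
      have h3 : ‖1 - w z‖ / ‖1 + w z‖ ≤ ‖1 - w b‖ / ‖1 + w b‖ := hbmax hz
      rw [← div_le_iff₀ (lt_of_le_of_lt (norm_nonneg _) (ht_lt z hz))]
      exact h3.trans (le_max_right _ _)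
  -- choose the exponent
  obtain ⟨N, hN⟩ : ∃ N : ℕ, θ ^ N < min (1 / 2) (ε / 4) :=
    exists_pow_lt_of_lt_one (lt_min (by norm_num) (by linarith)) hθ1
  have hN1 : θ ^ N < 1 / 2 := lt_of_lt_of_le hN (min_le_left _ _)
  have hN2 : θ ^ N < ε / 4 := lt_of_lt_of_le hN (min_le_right _ _)
  set B : ℂ[X] := (1 + W) ^ N + (1 - W) ^ N with hB
  have hBe : ∀ z, B.eval z = (1 + w z) ^ N + (1 - w z) ^ N := by
    intro z; simp [hB, hWe]
  -- lower bounds for the denominator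
  have hkey : ∀ a b : ℂ, ‖a‖ ≤ θ * ‖b‖ → b ≠ 0 → a ^ N + b ^ N ≠ 0 ∧
      ‖a ^ N / (a ^ N + b ^ N)‖ < ε / 2 := by
    intro a b hab hb
    have hb0 : 0 < ‖b‖ ^ N := pow_pos (norm_pos_iff.mpr hb) _
    have h1 : ‖a ^ N‖ ≤ θ ^ N * ‖b‖ ^ N := by
      rw [norm_pow, ← mul_pow]
      exact pow_le_pow_left₀ (norm_nonneg _) hab N
    have h2 : ‖b‖ ^ N / 2 ≤ ‖a ^ N + b ^ N‖ := by
      have h3 : ‖b ^ N‖ - ‖a ^ N‖ ≤ ‖a ^ N + b ^ N‖ := by
        have := norm_sub_norm_le (b ^ N) (-(a ^ N))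
        rw [norm_neg, sub_neg_eq_add, add_comm (b ^ N)] at this
        exact this
      rw [norm_pow b N] at h3
      nlinarith
    have h4 : 0 < ‖a ^ N + b ^ N‖ := lt_of_lt_of_le (by positivity) h2
    refine ⟨norm_pos_iff.mp h4, ?_⟩
    rw [norm_div, div_lt_iff₀ h4]
    nlinarith [norm_nonneg (a ^ N)]
  have hden_s : ∀ z ∈ s, B.eval z ≠ 0 ∧ ‖(1 + w z) ^ N * (B.eval z)⁻¹‖ < ε / 2 := by
    intro z hz
    have hne : (1 - w z) ≠ 0 := norm_pos_iff.mp (lt_of_le_of_lt (norm_nonneg _) (hs_lt z hz))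
    have := hkey (1 + w z) (1 - w z) (hθs z hz) hne
    rw [hBe]
    exact this
  have hden_t : ∀ z ∈ t, B.eval z ≠ 0 ∧ ‖(1 + w z) ^ N * (B.eval z)⁻¹ - 1‖ < ε / 2 := by
    intro z hz
    have hne : (1 + w z) ≠ 0 := norm_pos_iff.mp (lt_of_le_of_lt (norm_nonneg _) (ht_lt z hz))
    have := hkey (1 - w z) (1 + w z) (hθt z hz) hne
    rw [hBe]
    refine ⟨by rw [add_comm]; exact this.1, ?_⟩
    have h1 : (1 + w z) ^ N * ((1 + w z) ^ N + (1 - w z) ^ N)⁻¹ - 1 =
        -((1 - w z) ^ N / ((1 - w z) ^ N + (1 + w z) ^ N)) := by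
      have h2 : (1 + w z) ^ N + (1 - w z) ^ N ≠ 0 := by rw [add_comm]; exact this.1
      rw [add_comm ((1 - w z) ^ N)]
      field_simp
      ring
    rw [h1, norm_neg]
    exact this.2
  have hB0 : B ≠ 0 := by
    intro h
    obtain ⟨a, ha⟩ := hsn
    exact (hden_s a ha).1 (by rw [h]; simp)
  have hroots : ∀ b, B.eval b = 0 → b ∈ l := by
    intro b hb
    rw [hBe] at hb
    have h1 : ‖1 + w b‖ ^ N = ‖1 - w b‖ ^ N := by
      rw [← norm_pow, ← norm_pow, eq_neg_of_add_eq_zero_left hb, norm_neg]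
    by_cases hN0 : N = 0
    · exfalso
      rw [hN0] at hb
      norm_num at hb
    · have h2 : ‖1 + w b‖ = ‖1 - w b‖ := (pow_left_inj₀ (norm_nonneg _) (norm_nonneg _) hN0).mp h1
      have h3 := hn1 b
      rw [h2, hn2] at h3
      show (w b).re = 0
      linarith
  -- a bound for the numerator
  obtain ⟨M, hM⟩ := (hs.union ht).exists_bound_of_continuousOn (f := fun z => (1 + w z) ^ N)
    (by fun_prop)
  have hM0 : 0 ≤ M := by
    obtain ⟨a, ha⟩ := hsn
    exact (norm_nonneg _).trans (hM a (Or.inl ha))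
  obtain ⟨q, hq⟩ := exists_inv_approx (hs.union ht) l hlpre hlK hlu B hB0 hroots
    (ε := ε / (2 * (M + 1))) (by positivity)
  have hfin : ∀ z ∈ s ∪ t, ‖((1 + W) ^ N * q).eval z - (1 + w z) ^ N * (B.eval z)⁻¹‖ < ε / 2 := by
    intro z hz
    have h1 : ((1 + W) ^ N * q).eval z = (1 + w z) ^ N * q.eval z := by simp [hWe]
    rw [h1, ← mul_sub, norm_mul]
    calc ‖(1 + w z) ^ N‖ * ‖q.eval z - (B.eval z)⁻¹‖ ≤ M * (ε / (2 * (M + 1))) :=
          mul_le_mul (hM z hz) (hq z hz).le (norm_nonneg _) hM0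
      _ < (M + 1) * (ε / (2 * (M + 1))) := by
          apply mul_lt_mul_of_pos_right (by linarith) (by positivity)
      _ = ε / 2 := by field_simp
  refine ⟨(1 + W) ^ N * q, fun z hz => ?_, fun z hz => ?_⟩
  · have h1 := hfin z (Or.inl hz)
    have h2 := (hden_s z hz).2
    calc ‖((1 + W) ^ N * q).eval z‖
        = ‖(((1 + W) ^ N * q).eval z - (1 + w z) ^ N * (B.eval z)⁻¹)
            + (1 + w z) ^ N * (B.eval z)⁻¹‖ := by congr 1; ring
      _ ≤ _ := norm_add_le _ _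
      _ < ε := by linarith
  · have h1 := hfin z (Or.inr hz)
    have h2 := (hden_t z hz).2
    calc ‖((1 + W) ^ N * q).eval z - 1‖
        = ‖(((1 + W) ^ N * q).eval z - (1 + w z) ^ N * (B.eval z)⁻¹)
            + ((1 + w z) ^ N * (B.eval z)⁻¹ - 1)‖ := by congr 1; ring
      _ ≤ _ := norm_add_le _ _
      _ < ε := by linarith

/-- Taylor approximation on a closed disc. -/
lemma exists_taylor {f : ℂ → ℂ} {U : Set ℂ} (hU : IsOpen U) (hf : DifferentiableOn ℂ f U)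
    {c : ℂ} {r : ℝ} (hr : 0 < r) (hsub : closedBall c r ⊆ U) {ε : ℝ} (hε : 0 < ε) :
    ∃ p : ℂ[X], ∀ z ∈ closedBall c r, ‖p.eval z - f z‖ < ε := by
  obtain ⟨δ, hδ, hδU⟩ := (isCompact_closedBall c r).exists_cthickening_subset_open hU hsub
  rw [cthickening_closedBall hδ.le hr.le] at hδU
  set R : NNReal := ⟨δ + r, by positivity⟩ with hR
  have hR0 : 0 < R := by
    rw [← NNReal.coe_pos]; show 0 < δ + r; positivity
  have hps : HasFPowerSeriesOnBall f (cauchyPowerSeries f c R) c R :=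
    (hf.mono hδU).hasFPowerSeriesOnBall hR0
  set r' : NNReal := ⟨δ / 2 + r, by positivity⟩ with hr'
  have hr'R : (r' : ENNReal) < R := by
    rw [ENNReal.coe_lt_coe, ← NNReal.coe_lt_coe]
    show δ / 2 + r < δ + r
    linarith
  have hunif := hps.tendstoUniformlyOn' hr'R
  have hev := Metric.tendstoUniformlyOn_iff.mp hunif ε hε
  obtain ⟨n, hn⟩ := hev.exists
  refine ⟨∑ k ∈ Finset.range n, C ((cauchyPowerSeries f c R).coeff k) * (X - C c) ^ k,
    fun z hz => ?_⟩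
  have hz' : z ∈ ball c (r' : ℝ) := by
    rw [mem_ball]
    have : dist z c ≤ r := hz
    show dist z c < δ / 2 + r
    linarith
  have h1 := hn z hz'
  rw [dist_comm, dist_eq_norm] at h1
  have h2 : (∑ k ∈ Finset.range n, C ((cauchyPowerSeries f c R).coeff k) * (X - C c) ^ k).eval z =
      (cauchyPowerSeries f c R).partialSum n (z - c) := by
    rw [Polynomial.eval_finset_sum, FormalMultilinearSeries.partialSum]
    refine Finset.sum_congr rfl fun k _ => ?_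
    simp [FormalMultilinearSeries.apply_eq_pow_smul_coeff, mul_comm]
  rw [h2]
  exact h1

/-- **Runge's theorem for two disjoint closed discs.** -/
theorem runge_two {f : ℂ → ℂ} {U : Set ℂ} (hU : IsOpen U) (hf : DifferentiableOn ℂ f U)
    {c₁ c₂ : ℂ} {r₁ r₂ : ℝ} (hr₁ : 0 < r₁) (hr₂ : 0 < r₂)
    (hdisj : Disjoint (closedBall c₁ r₁) (closedBall c₂ r₂))
    (hsub : closedBall c₁ r₁ ∪ closedBall c₂ r₂ ⊆ U) {ε : ℝ} (hε : 0 < ε) :
    ∃ p : ℂ[X], ∀ z ∈ closedBall c₁ r₁ ∪ closedBall c₂ r₂, ‖p.eval z - f z‖ < ε := by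
  obtain ⟨p₁, hp₁⟩ := exists_taylor hU hf hr₁ (subset_union_left.trans hsub) (half_pos hε)
  obtain ⟨p₂, hp₂⟩ := exists_taylor hU hf hr₂ (subset_union_right.trans hsub) (half_pos hε)
  obtain ⟨M, hM⟩ := ((isCompact_closedBall c₁ r₁).union
    (isCompact_closedBall c₂ r₂)).exists_bound_of_continuousOn (f := fun z => (p₂ - p₁).eval z)
    (by fun_prop)
  have hM0 : 0 ≤ M := (norm_nonneg _).trans (hM c₁ (Or.inl (mem_closedBall_self hr₁.le)))
  obtain ⟨χ, hχ₁, hχ₂⟩ := exists_chi (isCompact_closedBall c₁ r₁) (convex_closedBall _ _)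
    (isCompact_closedBall c₂ r₂) (convex_closedBall _ _) hdisj
    ⟨c₁, mem_closedBall_self hr₁.le⟩ ⟨c₂, mem_closedBall_self hr₂.le⟩
    (ε := ε / (2 * (M + 1))) (by positivity)
  have hb : ∀ a : ℝ, 0 ≤ a → a < ε / (2 * (M + 1)) → ∀ b : ℝ, 0 ≤ b → b ≤ M → a * b < ε / 2 := by
    intro a ha0 ha b hb0 hb
    calc a * b ≤ (ε / (2 * (M + 1))) * M := mul_le_mul ha.le hb hb0 (by positivity)
      _ < (ε / (2 * (M + 1))) * (M + 1) := by
          apply mul_lt_mul_of_pos_left (by linarith) (by positivity)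
      _ = ε / 2 := by field_simp
  refine ⟨p₁ + χ * (p₂ - p₁), ?_⟩
  rintro z (hz | hz)
  · have h1 : (p₁ + χ * (p₂ - p₁)).eval z - f z =
        (p₁.eval z - f z) + χ.eval z * (p₂ - p₁).eval z := by
      simp only [eval_add, eval_mul]; ring
    rw [h1]
    have h2 := hb _ (norm_nonneg _) (hχ₁ z hz) _ (norm_nonneg _) (hM z (Or.inl hz))
    calc _ ≤ ‖p₁.eval z - f z‖ + ‖χ.eval z * (p₂ - p₁).eval z‖ := norm_add_le _ _
      _ < ε := by rw [norm_mul]; linarith [hp₁ z hz]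
  · have h1 : (p₁ + χ * (p₂ - p₁)).eval z - f z =
        (p₂.eval z - f z) + (χ.eval z - 1) * (p₂ - p₁).eval z := by
      simp only [eval_add, eval_mul, eval_sub]; ring
    rw [h1]
    have h2 := hb _ (norm_nonneg _) (hχ₂ z hz) _ (norm_nonneg _) (hM z (Or.inr hz))
    calc _ ≤ ‖p₂.eval z - f z‖ + ‖(χ.eval z - 1) * (p₂ - p₁).eval z‖ := norm_add_le _ _
      _ < ε := by rw [norm_mul]; linarith [hp₂ z hz]

end Pool.Agent.H46.Oka
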