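import Mathlib
import Pool.Agent.H46.Oka.Curve
import Pool.Agent.H46.Oka.Limit
import Pool.Agent.H46.Oka.Runge2

set_option autoImplicit false

open Metric Set Filter Complex
open scoped Topology Real

namespace Pool.Agent.H46.Oka

/-- The set of pairs of polynomials, the second one being nonconstant, as continuous maps. -/
def polyPairs : Set C(ℂ, ℂ × ℂ) :=
  {g | ∃ P Q : Polynomial ℂ, 1 ≤ Q.natDegree ∧ ∀ z, g z = (P.eval z, Q.eval z)}

lemma exists_dense_curves : ∃ D : ℕ → Polynomial ℂ × Polynomial ℂ,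
    (∀ n, 1 ≤ (D n).2.natDegree) ∧
    ∀ (P Q : Polynomial ℂ) (K : Set ℂ), IsCompact K → ∀ ε > 0, ∃ n, ∀ z ∈ K,
      ‖(D n).1.eval z - P.eval z‖ < ε ∧ ‖(D n).2.eval z - Q.eval z‖ < ε := by
  haveI hne : Nonempty polyPairs :=
    ⟨⟨⟨fun z => (0, z), by fun_prop⟩, 0, Polynomial.X, by simp, fun z => by simp⟩⟩
  obtain ⟨u, hu⟩ := TopologicalSpace.exists_dense_seq polyPairs
  choose P Q hQ hPQ using fun n => (u n).2
  refine ⟨fun n => (P n, Q n), hQ, ?_⟩
  intro P₀ Q₀ K hK ε hε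
  -- perturb `Q₀` to be nonconstant
  obtain ⟨Q₁, hQ₁, hQ₁K⟩ : ∃ Q₁ : Polynomial ℂ, 1 ≤ Q₁.natDegree ∧
      ∀ z ∈ K, ‖Q₁.eval z - Q₀.eval z‖ < ε / 2 := by
    by_cases hdeg : 1 ≤ Q₀.natDegree
    · exact ⟨Q₀, hdeg, fun z _ => by simpa using half_pos hε⟩
    · obtain ⟨M, hM⟩ := hK.isBounded.exists_norm_le
      have hM' : ∀ z ∈ K, ‖z‖ ≤ |M| := fun z hz => (hM z hz).trans (le_abs_self M)
      set η : ℝ := ε / (2 * (|M| + 1)) with hη
      have hη0 : 0 < η := by positivity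
      refine ⟨Q₀ + Polynomial.C (η : ℂ) * Polynomial.X, ?_, fun z hz => ?_⟩
      · have h1 : (Polynomial.C (η : ℂ) * Polynomial.X).natDegree = 1 :=
          Polynomial.natDegree_C_mul_X _ (by exact_mod_cast hη0.ne')
        rw [Polynomial.natDegree_add_eq_right_of_natDegree_lt (by omega), h1]
      · have : (Q₀ + Polynomial.C (η : ℂ) * Polynomial.X).eval z - Q₀.eval z = η * z := by
          simp
        rw [this, norm_mul, Complex.norm_real, Real.norm_of_nonneg hη0.le]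
        calc η * ‖z‖ ≤ η * |M| := mul_le_mul_of_nonneg_left (hM' z hz) hη0.le
          _ < η * (|M| + 1) := by nlinarith
          _ = ε / 2 := by rw [hη]; field_simp
  let g : C(ℂ, ℂ × ℂ) := ⟨fun z => (P₀.eval z, Q₁.eval z), by fun_prop⟩
  have hg : g ∈ polyPairs := ⟨P₀, Q₁, hQ₁, fun z => rfl⟩
  have hnhds : ∀ᶠ h : C(ℂ, ℂ × ℂ) in 𝓝 g, ∀ z ∈ K, dist (g z) (h z) < ε / 2 := by
    have h1 : Tendsto (fun h : C(ℂ, ℂ × ℂ) => h) (𝓝 g) (𝓝 g) := tendsto_id
    have h2 := ContinuousMap.tendsto_iff_forall_isCompact_tendstoUniformlyOn.mp h1 K hK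
    exact Metric.tendstoUniformlyOn_iff.mp h2 (ε / 2) (half_pos hε)
  have hnhds' : ∀ᶠ h : polyPairs in 𝓝 ⟨g, hg⟩, ∀ z ∈ K, dist (g z) ((h : C(ℂ, ℂ × ℂ)) z) < ε / 2 :=
    (continuous_subtype_val.tendsto (⟨g, hg⟩ : polyPairs)).eventually hnhds
  obtain ⟨_, hn, ⟨n, rfl⟩⟩ := (mem_closure_iff_nhds.mp (hu ⟨g, hg⟩)) _ hnhds'
  refine ⟨n, fun z hz => ?_⟩
  have h1 : dist (g z) ((u n : C(ℂ, ℂ × ℂ)) z) < ε / 2 := hn z hz
  rw [hPQ n z, Prod.dist_eq, max_lt_iff, dist_comm, dist_comm (g z).2, dist_eq_norm,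
    dist_eq_norm] at h1
  have h2 : ‖(P n).eval z - P₀.eval z‖ < ε / 2 := h1.1
  have h3 : ‖(Q n).eval z - Q₁.eval z‖ < ε / 2 := h1.2
  refine ⟨h2.trans (by linarith), ?_⟩
  calc ‖(Q n).eval z - Q₀.eval z‖
      = ‖((Q n).eval z - Q₁.eval z) + (Q₁.eval z - Q₀.eval z)‖ := by congr 1; ring
    _ ≤ _ := norm_add_le _ _
    _ < ε := by linarith [hQ₁K z hz]

/-- A stage of the construction. -/
structure Stage where
  L : Set (ℂ × ℂ)
  comp : IsCompact L
  ne : ∀ p ∈ L, p.1 ≠ 0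
  good : Good L

lemma continuous_curve (P Q : Polynomial ℂ) : Continuous (curve P Q) := by
  unfold curve
  fun_prop

lemma differentiable_curve (P Q : Polynomial ℂ) : Differentiable ℂ (curve P Q) := by
  unfold curve
  exact (P.differentiable.cexp).prodMk Q.differentiable

lemma Stage.exists_next (S : Stage) (P Q : Polynomial ℂ) (hQ : 1 ≤ Q.natDegree) (R : ℝ) :
    ∃ S' : Stage, S.L ∪ curve P Q '' closedBall 0 R ⊆ interior S'.L := by
  have hcomp : IsCompact (S.L ∪ curve P Q '' closedBall 0 R) :=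
    S.comp.union ((isCompact_closedBall _ _).image (continuous_curve P Q))
  have hne : ∀ p ∈ S.L ∪ curve P Q '' closedBall 0 R, p.1 ≠ 0 := by
    rintro p (hp | ⟨z, -, rfl⟩)
    · exact S.ne p hp
    · exact exp_ne_zero _
  have hgood : Good (S.L ∪ curve P Q '' closedBall 0 R) :=
    (Good.union_curve S.comp.isClosed S.good P Q hQ).mono
      (union_subset_union_right _ (image_subset_range _ _))
  obtain ⟨δ, hδ, h1, h2⟩ := Good.thicken hcomp hne hgood
  refine ⟨⟨cthickening δ _, hcomp.cthickening, h1, h2⟩, ?_⟩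
  refine (self_subset_thickening hδ _).trans ?_
  exact interior_maximal (thickening_subset_cthickening _ _) isOpen_thickening

/-- The circle. -/
def stageZero : Stage :=
  ⟨(fun x : ℂ => (x, (0 : ℂ))) '' sphere 0 1, (isCompact_sphere _ _).image (by fun_prop), by
    rintro p ⟨x, hx, rfl⟩ h
    simp only at h
    rw [h] at hx
    simp at hx, good_circle⟩

lemma exists_stages : ∃ (D : ℕ → Polynomial ℂ × Polynomial ℂ) (S : ℕ → Stage),
    (∀ (P Q : Polynomial ℂ) (K : Set ℂ), IsCompact K → ∀ ε > 0, ∃ n, ∀ z ∈ K,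
      ‖(D n).1.eval z - P.eval z‖ < ε ∧ ‖(D n).2.eval z - Q.eval z‖ < ε) ∧
    S 0 = stageZero ∧ ∀ n, (S n).L ∪ curve (D n.unpair.1).1 (D n.unpair.1).2 ''
      closedBall 0 (n.unpair.2 : ℝ) ⊆ interior (S (n + 1)).L := by
  obtain ⟨D, hD1, hD2⟩ := exists_dense_curves
  choose next hnext using fun (S : Stage) (n : ℕ) =>
    S.exists_next (D n.unpair.1).1 (D n.unpair.1).2 (hD1 _) (n.unpair.2 : ℝ)
  refine ⟨D, fun n => Nat.rec stageZero (fun n S => next S n) n, hD2, rfl, fun n => ?_⟩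
  exact hnext _ n

/-- Holomorphic logarithm on a disc. -/
lemma exists_log_ball {f : ℂ → ℂ} {c : ℂ} {r : ℝ} (hr : 0 < r)
    (hf : DifferentiableOn ℂ f (ball c r)) (hne : ∀ z ∈ ball c r, f z ≠ 0) :
    ∃ g : ℂ → ℂ, DifferentiableOn ℂ g (ball c r) ∧ ∀ z ∈ ball c r, exp (g z) = f z := by
  have hd : DifferentiableOn ℂ (fun z => deriv f z / f z) (ball c r) :=
    (hf.deriv isOpen_ball).div hf hne
  obtain ⟨g, hg⟩ := hd.isExactOn_ball
  have hg' : ∀ z ∈ ball c r, HasDerivAt g (deriv f z / f z) z := hg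
  have hfd : ∀ z ∈ ball c r, HasDerivAt f (deriv f z) z := fun z hz =>
    ((hf z hz).differentiableAt (isOpen_ball.mem_nhds hz)).hasDerivAt
  have hc : c ∈ ball c r := mem_ball_self hr
  have hconst : ∀ z ∈ ball c r, f z * exp (-g z) = f c * exp (-g c) := by
    have hder : ∀ z ∈ ball c r, HasDerivAt (fun z => f z * exp (-g z)) 0 z := by
      intro z hz
      have h1 := (hfd z hz).mul (hg' z hz).neg.cexp
      have h3 := hne z hz
      have h2 : deriv f z * cexp ((-g) z) + f z * (cexp ((-g) z) * -(deriv f z / f z)) = 0 := by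
        field_simp
        ring
      rw [h2] at h1
      exact h1
    intro z hz
    refine isOpen_ball.is_const_of_deriv_eq_zero (convex_ball c r).isPreconnected
      (fun w hw => (hder w hw).differentiableAt.differentiableWithinAt)
      (fun w hw => (hder w hw).deriv) hz hc
  have hC : f c * exp (-g c) ≠ 0 := mul_ne_zero (hne c hc) (exp_ne_zero _)
  refine ⟨fun z => g z + log (f c * exp (-g c)), ?_, fun z hz => ?_⟩
  · exact DifferentiableOn.add_const _ (fun z hz =>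
      (hg' z hz).differentiableAt.differentiableWithinAt)
  · rw [exp_add, exp_log hC, ← hconst z hz, mul_comm (f z), ← mul_assoc, ← exp_add]
    simp

end Pool.Agent.H46.Oka
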