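import Mathlib

set_option autoImplicit false

open Metric Set Filter
open scoped Manifold ContDiff Topology

/-!
Weak Oka-1 manifolds and Oka-1 manifolds.

A complex manifold is a Mathlib manifold modelled on a complex normed space `E` (with atlas whose
transition maps are complex analytic, `IsManifold 𝓘(ℂ, E) ω X`), together with a complete distance.
Holomorphic maps are the maps which are complex differentiable in the manifold sense
(`MDifferentiable`).
-/

namespace Pool.Agent.H46.Oka

/-- `f : M → N` is holomorphic near the subset `s` of `M`: it is holomorphic on some open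
neighbourhood `U` of `s`. Here `M` and `N` are complex manifolds modelled on `E` and `E'`. -/
def HolomorphicNear {E E' : Type} [NormedAddCommGroup E] [NormedSpace ℂ E]
    [NormedAddCommGroup E'] [NormedSpace ℂ E'] {M N : Type}
    [TopologicalSpace M] [ChartedSpace E M] [TopologicalSpace N] [ChartedSpace E' N]
    (f : M → N) (s : Set M) : Prop :=
  ∃ U : Set M, IsOpen U ∧ s ⊆ U ∧ MDifferentiableOn 𝓘(ℂ, E) 𝓘(ℂ, E') f U

/-- A complex manifold `X` (modelled on `E`, with a distance) is weak Oka-1: for all disjoint closed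
discs `D₁ = closedBall c₁ r₁`, `D₂ = closedBall c₂ r₂` inside a larger closed disc
`D = closedBall c r` of the plane, every map `F` to `X` which is holomorphic near `D₁ ∪ D₂` and
every `e > 0` there is a map `G` to `X` which is holomorphic near `D` and satisfies
`dist (G z) (F z) ≤ e` on `D₁ ∪ D₂`. -/
def WeakOka1 (E X : Type) [NormedAddCommGroup E] [NormedSpace ℂ E]
    [MetricSpace X] [ChartedSpace E X] : Prop :=
  ∀ (c₁ c₂ c : ℂ) (r₁ r₂ r : ℝ), 0 < r₁ → 0 < r₂ → 0 < r →
    Disjoint (closedBall c₁ r₁) (closedBall c₂ r₂) →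
    closedBall c₁ r₁ ⊆ closedBall c r → closedBall c₂ r₂ ⊆ closedBall c r →
    ∀ F : ℂ → X, HolomorphicNear (E := ℂ) (E' := E) F (closedBall c₁ r₁ ∪ closedBall c₂ r₂) →
    ∀ e : ℝ, 0 < e → ∃ G : ℂ → X, HolomorphicNear (E := ℂ) (E' := E) G (closedBall c r) ∧
      ∀ z ∈ closedBall c₁ r₁ ∪ closedBall c₂ r₂, dist (G z) (F z) ≤ e

/-- The maps `F` and `f` from a Riemann surface `R` to a complex manifold `X` agree to order `k` at
the point `a`: they have the same value at `a`, and in local coordinates at `a` and at `f a` their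
derivatives at `a` up to order `k` are equal. -/
def AgreeToOrder (E : Type) {R X : Type} [NormedAddCommGroup E] [NormedSpace ℂ E]
    [TopologicalSpace R] [ChartedSpace ℂ R] [TopologicalSpace X] [ChartedSpace E X]
    (k : ℕ) (F f : R → X) (a : R) : Prop :=
  F a = f a ∧ ∀ j ≤ k,
    iteratedDeriv j (writtenInExtChartAt 𝓘(ℂ, ℂ) 𝓘(ℂ, E) a F) (extChartAt 𝓘(ℂ, ℂ) a a) =
    iteratedDeriv j (writtenInExtChartAt 𝓘(ℂ, ℂ) 𝓘(ℂ, E) a f) (extChartAt 𝓘(ℂ, ℂ) a a)

/-- A complex manifold `X` (modelled on `E`, with a distance) is Oka-1: for every open (connected,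
noncompact) Riemann surface `R`, every compact `K ⊆ R` such that no connected component of the
complement of `K` is relatively compact, every discrete sequence `a` of points of `R`, all orders
`k i`, every `ε > 0` and every continuous map `f : R → X` which is holomorphic near `K` and the
points `a i`, there is a holomorphic map `F : R → X`, homotopic to `f`, with
`sup_{p ∈ K} dist (F p) (f p) < ε`, which agrees with `f` to order `k i` at every `a i`. -/
def Oka1 (E X : Type) [NormedAddCommGroup E] [NormedSpace ℂ E]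
    [MetricSpace X] [ChartedSpace E X] : Prop :=
  ∀ (R : Type) [TopologicalSpace R] [T2Space R] [SecondCountableTopology R] [ConnectedSpace R]
    [NoncompactSpace R] [ChartedSpace ℂ R] [IsManifold 𝓘(ℂ, ℂ) ω R]
    (K : Set R), IsCompact K →
    (∀ p ∈ Kᶜ, ¬ IsCompact (closure (connectedComponentIn Kᶜ p))) →
    ∀ a : ℕ → R, Function.Injective a → (∀ C : Set R, IsCompact C → {i | a i ∈ C}.Finite) →
    ∀ (k : ℕ → ℕ) (ε : ℝ), 0 < ε →
    ∀ f : C(R, X), HolomorphicNear (E := ℂ) (E' := E) f (K ∪ range a) →
    ∃ F : C(R, X), MDifferentiable 𝓘(ℂ, ℂ) 𝓘(ℂ, E) F ∧ ContinuousMap.Homotopic F f ∧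
      (∃ δ < ε, ∀ p ∈ K, dist (F p) (f p) ≤ δ) ∧
      ∀ i, AgreeToOrder E (k i) F f (a i)

end Pool.Agent.H46.Oka
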