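import Mathlib
import Pool.Agent.H46.Oka.Domain

set_option autoImplicit false

open Metric Set Filter Complex
open scoped Topology Real

namespace Pool.Agent.H46.Oka

/-- The properties of the domain. -/
structure IsOkaDomain (X : Set (ℂ × ℂ)) : Prop where
  isOpen : IsOpen X
  isConnected : IsConnected X
  ne : ∀ p ∈ X, p.1 ≠ 0
  circle : ∀ x : ℂ, ‖x‖ = 1 → (x, (0 : ℂ)) ∈ X
  approx : ∀ (F : ℂ → ℂ × ℂ) (U : Set ℂ), IsOpen U → DifferentiableOn ℂ F U →
    ∀ (c₁ c₂ : ℂ) (r₁ r₂ : ℝ), 0 < r₁ → 0 < r₂ →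
    Disjoint (closedBall c₁ r₁) (closedBall c₂ r₂) →
    closedBall c₁ r₁ ∪ closedBall c₂ r₂ ⊆ U →
    (∀ z ∈ closedBall c₁ r₁ ∪ closedBall c₂ r₂, F z ∈ X) →
    ∀ ε : ℝ, 0 < ε → ∃ G : ℂ → ℂ × ℂ, Differentiable ℂ G ∧ (∀ z, G z ∈ X) ∧
      ∀ z ∈ closedBall c₁ r₁ ∪ closedBall c₂ r₂, dist (G z) (F z) < ε
  noann : ∀ ξ y : ℂ → ℂ, Differentiable ℂ ξ → Differentiable ℂ y →
    (∀ w, ξ (w + 2 * π * I) = ξ w + 2 * π * I) → (∀ w, y (w + 2 * π * I) = y w) →
    ¬ ∀ w, (exp (ξ w), y w) ∈ X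

/-- Logarithm near two disjoint closed discs. -/
lemma exists_log_two {f : ℂ → ℂ} {U : Set ℂ} (hU : IsOpen U) (hf : DifferentiableOn ℂ f U)
    {c₁ c₂ : ℂ} {r₁ r₂ : ℝ} (hr₁ : 0 < r₁) (hr₂ : 0 < r₂)
    (hdisj : Disjoint (closedBall c₁ r₁) (closedBall c₂ r₂))
    (hsub : closedBall c₁ r₁ ∪ closedBall c₂ r₂ ⊆ U)
    (hne : ∀ z ∈ closedBall c₁ r₁ ∪ closedBall c₂ r₂, f z ≠ 0) :
    ∃ (V : Set ℂ) (g : ℂ → ℂ), IsOpen V ∧ closedBall c₁ r₁ ∪ closedBall c₂ r₂ ⊆ V ∧
      DifferentiableOn ℂ g V ∧ ∀ z ∈ V, exp (g z) = f z := by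
  have hU' : IsOpen (U ∩ f ⁻¹' {0}ᶜ) :=
    hf.continuousOn.isOpen_inter_preimage hU isOpen_compl_singleton
  have h1 : closedBall c₁ r₁ ⊆ U ∩ f ⁻¹' {0}ᶜ := fun z hz =>
    ⟨hsub (Or.inl hz), hne z (Or.inl hz)⟩
  have h2 : closedBall c₂ r₂ ⊆ U ∩ f ⁻¹' {0}ᶜ := fun z hz =>
    ⟨hsub (Or.inr hz), hne z (Or.inr hz)⟩
  obtain ⟨δ₁, hδ₁, hs₁⟩ := (isCompact_closedBall c₁ r₁).exists_thickening_subset_open hU' h1
  obtain ⟨δ₂, hδ₂, hs₂⟩ := (isCompact_closedBall c₂ r₂).exists_thickening_subset_open hU' h2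
  obtain ⟨δ₃, hδ₃, hs₃⟩ := hdisj.exists_thickenings (isCompact_closedBall c₁ r₁)
    isClosed_closedBall
  set δ := min δ₁ (min δ₂ δ₃) with hδdef
  have hδ : 0 < δ := lt_min hδ₁ (lt_min hδ₂ hδ₃)
  have e₁ : thickening δ (closedBall c₁ r₁) = ball c₁ (δ + r₁) := thickening_closedBall hδ hr₁.le _
  have e₂ : thickening δ (closedBall c₂ r₂) = ball c₂ (δ + r₂) := thickening_closedBall hδ hr₂.le _
  have hb₁ : ball c₁ (δ + r₁) ⊆ U ∩ f ⁻¹' {0}ᶜ := by
    rw [← e₁]; exact (thickening_mono (min_le_left _ _) _).trans hs₁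
  have hb₂ : ball c₂ (δ + r₂) ⊆ U ∩ f ⁻¹' {0}ᶜ := by
    rw [← e₂]
    exact (thickening_mono ((min_le_right _ _).trans (min_le_left _ _)) _).trans hs₂
  have hbd : Disjoint (ball c₁ (δ + r₁)) (ball c₂ (δ + r₂)) := by
    rw [← e₁, ← e₂]
    exact hs₃.mono (thickening_mono ((min_le_right _ _).trans (min_le_right _ _)) _)
      (thickening_mono ((min_le_right _ _).trans (min_le_right _ _)) _)
  obtain ⟨g₁, hg₁, he₁⟩ := exists_log_ball (f := f) (c := c₁) (r := δ + r₁) (by linarith)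
    (hf.mono fun z hz => (hb₁ hz).1) (fun z hz => (hb₁ hz).2)
  obtain ⟨g₂, hg₂, he₂⟩ := exists_log_ball (f := f) (c := c₂) (r := δ + r₂) (by linarith)
    (hf.mono fun z hz => (hb₂ hz).1) (fun z hz => (hb₂ hz).2)
  classical
  set g : ℂ → ℂ := fun z => if z ∈ ball c₁ (δ + r₁) then g₁ z else g₂ z with hg
  have hgeq₁ : ∀ z ∈ ball c₁ (δ + r₁), g z = g₁ z := fun z hz => if_pos hz
  have hgeq₂ : ∀ z ∈ ball c₂ (δ + r₂), g z = g₂ z := fun z hz =>
    if_neg fun h => disjoint_left.mp hbd h hz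
  refine ⟨ball c₁ (δ + r₁) ∪ ball c₂ (δ + r₂), g, isOpen_ball.union isOpen_ball, ?_, ?_, ?_⟩
  · exact union_subset_union (closedBall_subset_ball (by linarith))
      (closedBall_subset_ball (by linarith))
  · rintro z (hz | hz)
    · have : DifferentiableAt ℂ g z := by
        refine ((hg₁ z hz).differentiableAt (isOpen_ball.mem_nhds hz)).congr_of_eventuallyEq ?_
        filter_upwards [isOpen_ball.mem_nhds hz] with w hw using hgeq₁ w hw
      exact this.differentiableWithinAt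
    · have : DifferentiableAt ℂ g z := by
        refine ((hg₂ z hz).differentiableAt (isOpen_ball.mem_nhds hz)).congr_of_eventuallyEq ?_
        filter_upwards [isOpen_ball.mem_nhds hz] with w hw using hgeq₂ w hw
      exact this.differentiableWithinAt
  · rintro z (hz | hz)
    · rw [hgeq₁ z hz, he₁ z hz]
    · rw [hgeq₂ z hz, he₂ z hz]

/-- Approximation of maps from two discs to `ℂ* × ℂ` by the curves `(exp P, Q)`. -/
lemma approx_curve {F : ℂ → ℂ × ℂ} {U : Set ℂ} (hU : IsOpen U) (hF : DifferentiableOn ℂ F U)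
    {c₁ c₂ : ℂ} {r₁ r₂ : ℝ} (hr₁ : 0 < r₁) (hr₂ : 0 < r₂)
    (hdisj : Disjoint (closedBall c₁ r₁) (closedBall c₂ r₂))
    (hsub : closedBall c₁ r₁ ∪ closedBall c₂ r₂ ⊆ U)
    (hne : ∀ z ∈ closedBall c₁ r₁ ∪ closedBall c₂ r₂, (F z).1 ≠ 0)
    (D : ℕ → Polynomial ℂ × Polynomial ℂ)
    (hD : ∀ (P Q : Polynomial ℂ) (K : Set ℂ), IsCompact K → ∀ ε > 0, ∃ n, ∀ z ∈ K,
      ‖(D n).1.eval z - P.eval z‖ < ε ∧ ‖(D n).2.eval z - Q.eval z‖ < ε)
    {ε : ℝ} (hε : 0 < ε) :
    ∃ n, ∀ z ∈ closedBall c₁ r₁ ∪ closedBall c₂ r₂,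
      dist (curve (D n).1 (D n).2 z) (F z) < ε := by
  have hK : IsCompact (closedBall c₁ r₁ ∪ closedBall c₂ r₂) :=
    (isCompact_closedBall c₁ r₁).union (isCompact_closedBall c₂ r₂)
  have hF1 : DifferentiableOn ℂ (fun z => (F z).1) U := hF.fst
  have hF2 : DifferentiableOn ℂ (fun z => (F z).2) U := hF.snd
  obtain ⟨V, g, hV, hVs, hgV, hgexp⟩ := exists_log_two hU hF1 hr₁ hr₂ hdisj hsub hne
  obtain ⟨M, hM⟩ := hK.exists_bound_of_continuousOn (f := fun z => (F z).1)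
    (hF1.continuousOn.mono hsub)
  have hM0 : 0 ≤ M := (norm_nonneg _).trans (hM c₁ (Or.inl (mem_closedBall_self hr₁.le)))
  set η : ℝ := min 1 (ε / (2 * (M + 1))) with hη
  have hη0 : 0 < η := lt_min one_pos (by positivity)
  obtain ⟨P, hP⟩ := runge_two hV hgV hr₁ hr₂ hdisj hVs (half_pos hη0)
  obtain ⟨Q, hQ⟩ := runge_two hU hF2 hr₁ hr₂ hdisj hsub (half_pos hε)
  obtain ⟨n, hn⟩ := hD P Q _ hK (min (η / 2) (ε / 2)) (lt_min (half_pos hη0) (half_pos hε))
  refine ⟨n, fun z hz => ?_⟩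
  have h1 : ‖(D n).1.eval z - g z‖ < η := by
    have h2 := (hn z hz).1.trans_le (min_le_left _ _)
    calc ‖(D n).1.eval z - g z‖ = ‖((D n).1.eval z - P.eval z) + (P.eval z - g z)‖ := by
          congr 1; ring
      _ ≤ _ := norm_add_le _ _
      _ < η := by linarith [hP z hz]
  have h3 : ‖(D n).2.eval z - (F z).2‖ < ε := by
    have h2 := (hn z hz).2.trans_le (min_le_right _ _)
    calc ‖(D n).2.eval z - (F z).2‖ = ‖((D n).2.eval z - Q.eval z) + (Q.eval z - (F z).2)‖ := by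
          congr 1; ring
      _ ≤ _ := norm_add_le _ _
      _ < ε := by linarith [hQ z hz]
  have h4 : ‖exp ((D n).1.eval z) - (F z).1‖ < ε := by
    have h5 : exp ((D n).1.eval z) - (F z).1 =
        (F z).1 * (exp ((D n).1.eval z - g z) - 1) := by
      rw [← hgexp z (hVs hz), mul_sub, ← exp_add]
      congr 2
      · ring
      · ring
    rw [h5, norm_mul]
    have h6 : ‖(D n).1.eval z - g z‖ ≤ 1 := h1.le.trans (min_le_left _ _)
    have h7 := Complex.norm_exp_sub_one_le h6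
    have h8 : η ≤ ε / (2 * (M + 1)) := min_le_right _ _
    calc ‖(F z).1‖ * ‖exp ((D n).1.eval z - g z) - 1‖ ≤ M * (2 * ‖(D n).1.eval z - g z‖) :=
          mul_le_mul (hM z hz) h7 (norm_nonneg _) hM0
      _ ≤ M * (2 * (ε / (2 * (M + 1)))) := by
          apply mul_le_mul_of_nonneg_left _ hM0
          linarith
      _ = M * (ε / (M + 1)) := by field_simp
      _ < (M + 1) * (ε / (M + 1)) := by
          apply mul_lt_mul_of_pos_right (by linarith) (by positivity)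
      _ = ε := by field_simp
  rw [Prod.dist_eq, max_lt_iff, dist_eq_norm, dist_eq_norm]
  exact ⟨h4, h3⟩

theorem exists_okaDomain : ∃ X : Set (ℂ × ℂ), IsOkaDomain X := by
  obtain ⟨D, S, hD, hS0, hS⟩ := exists_stages
  set X₀ : Set (ℂ × ℂ) := ⋃ n, interior (S n).L with hX₀
  have hX₀o : IsOpen X₀ := isOpen_iUnion fun n => isOpen_interior
  have hcurve : ∀ j z, curve (D j).1 (D j).2 z ∈ X₀ := by
    intro j z
    obtain ⟨R, hR⟩ := exists_nat_ge ‖z‖
    refine mem_iUnion.mpr ⟨Nat.pair j R + 1, hS (Nat.pair j R) (Or.inr ?_)⟩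
    rw [Nat.unpair_pair]
    exact ⟨z, by simpa using hR, rfl⟩
  have hcircle : ∀ x : ℂ, ‖x‖ = 1 → (x, (0 : ℂ)) ∈ X₀ := by
    intro x hx
    refine mem_iUnion.mpr ⟨1, hS 0 (Or.inl ?_)⟩
    rw [hS0]
    exact ⟨x, by simpa using hx, rfl⟩
  have hmono : Monotone fun n => interior (S n).L := by
    refine monotone_nat_of_le_succ fun n => ?_
    exact interior_subset.trans (subset_union_left.trans (hS n))
  have hX₀ne : ∀ p ∈ X₀, p.1 ≠ 0 := by
    intro p hp
    obtain ⟨n, hn⟩ := mem_iUnion.mp hp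
    exact (S n).ne p (interior_subset hn)
  set X : Set (ℂ × ℂ) := connectedComponentIn X₀ (1, 0) with hX
  have h10 : ((1 : ℂ), (0 : ℂ)) ∈ X₀ := hcircle 1 (by simp)
  have hXX₀ : X ⊆ X₀ := connectedComponentIn_subset _ _
  have hXo : IsOpen X := hX₀o.connectedComponentIn
  have hXc : IsConnected X := isConnected_connectedComponentIn_iff.mpr h10
  refine ⟨X, hXo, hXc, fun p hp => hX₀ne p (hXX₀ hp), ?_, ?_, ?_⟩
  · -- the circle
    have h1 : IsPreconnected ((fun x : ℂ => (x, (0 : ℂ))) '' sphere 0 1) := by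
      refine IsPreconnected.image ?_ _ (by fun_prop)
      refine isPreconnected_sphere ?_ _ _
      rw [← Nat.cast_one, ← Module.finrank_eq_rank, Complex.finrank_real_complex]
      norm_num
    have h2 : ((fun x : ℂ => (x, (0 : ℂ))) '' sphere 0 1) ⊆ X₀ := by
      rintro _ ⟨x, hx, rfl⟩
      exact hcircle x (by simpa using hx)
    have h3 : ((1 : ℂ), (0 : ℂ)) ∈ ((fun x : ℂ => (x, (0 : ℂ))) '' sphere 0 1) :=
      ⟨1, by simp, rfl⟩
    intro x hx
    exact h1.subset_connectedComponentIn h3 h2 ⟨x, by simpa using hx, rfl⟩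
  · -- approximation
    intro F U hU hF c₁ c₂ r₁ r₂ hr₁ hr₂ hdisj hsub hFX ε hε
    have hc₁ : c₁ ∈ closedBall c₁ r₁ ∪ closedBall c₂ r₂ := Or.inl (mem_closedBall_self hr₁.le)
    obtain ⟨ρ, hρ, hρX⟩ := Metric.isOpen_iff.mp hXo (F c₁) (hFX c₁ hc₁)
    obtain ⟨n, hn⟩ := approx_curve hU hF hr₁ hr₂ hdisj hsub
      (fun z hz => hX₀ne _ (hXX₀ (hFX z hz))) D hD (lt_min hε hρ)
    refine ⟨curve (D n).1 (D n).2, differentiable_curve _ _, ?_,
      fun z hz => (hn z hz).trans_le (min_le_left _ _)⟩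
    have hpt : curve (D n).1 (D n).2 c₁ ∈ X := hρX ((hn c₁ hc₁).trans_le (min_le_right _ _))
    have h1 : IsPreconnected (range (curve (D n).1 (D n).2)) :=
      isPreconnected_range (continuous_curve _ _)
    have h2 : range (curve (D n).1 (D n).2) ⊆ connectedComponentIn X₀ (curve (D n).1 (D n).2 c₁) :=
      h1.subset_connectedComponentIn (mem_range_self _) (range_subset_iff.mpr (hcurve n))
    have h3 : connectedComponentIn X₀ (curve (D n).1 (D n).2 c₁) = X :=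
      (connectedComponentIn_eq hpt).symm
    rw [h3] at h2
    exact fun z => h2 (mem_range_self z)
  · -- no annulus
    intro ξ y hξ hy pξ py hcon
    set T : Set ℂ := Icc (-1 : ℝ) 1 ×ℂ Icc 0 (2 * π) with hT
    have hTc : IsCompact T := isCompact_Icc.reProdIm isCompact_Icc
    have hgc : Continuous fun w => (exp (ξ w), y w) :=
      (hξ.continuous.cexp).prodMk hy.continuous
    obtain ⟨n, hn⟩ : ∃ n, (fun w => (exp (ξ w), y w)) '' T ⊆ interior (S n).L := by
      refine (hTc.image hgc).elim_directed_cover _ (fun n => isOpen_interior) ?_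
        hmono.directed_le
      rintro _ ⟨w, -, rfl⟩
      exact hXX₀ (hcon w)
    have hperk : ∀ (k : ℤ) (w : ℂ), exp (ξ (w + k * (2 * π * I))) = exp (ξ w) ∧
        y (w + k * (2 * π * I)) = y w := by
      have hstep : ∀ w, exp (ξ (w + 2 * π * I)) = exp (ξ w) := by
        intro w
        rw [pξ, exp_add, exp_two_pi_mul_I, mul_one]
      intro k
      induction k using Int.induction_on with
      | zero => intro w; simp
      | succ k ih =>
        intro w
        have he : w + ((k : ℤ) + 1 : ℤ) * (2 * π * I) = (w + (k : ℤ) * (2 * π * I)) + 2 * π * I := by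
          push_cast; ring
        rw [he, hstep, py]
        exact ih w
      | pred k ih =>
        intro w
        have he : w + (-(k : ℤ) : ℤ) * (2 * π * I) =
            (w + (-(k : ℤ) - 1 : ℤ) * (2 * π * I)) + 2 * π * I := by
          push_cast; ring
        have h1 := ih w
        rw [he, hstep, py] at h1
        exact h1
    refine (S n).good ξ y ⟨hξ.differentiableOn, hy.differentiableOn, fun w _ => pξ w,
      fun w _ => py w, fun w hw => ?_⟩
    set k : ℤ := -⌊w.im / (2 * π)⌋ with hk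
    obtain ⟨h1, h2⟩ := hperk k w
    rw [← h1, ← h2]
    refine interior_subset (hn ⟨w + k * (2 * π * I), ?_, rfl⟩)
    have hpi : 0 < 2 * π := by positivity
    have h6 : (⌊w.im / (2 * π)⌋ : ℝ) ≤ w.im / (2 * π) := Int.floor_le _
    have h7 : w.im / (2 * π) < ⌊w.im / (2 * π)⌋ + 1 := Int.lt_floor_add_one _
    rw [le_div_iff₀ hpi] at h6
    rw [div_lt_iff₀ hpi] at h7
    have hw' : |w.re| < 1 := hw
    rw [abs_lt] at hw'
    rw [hT, Complex.mem_reProdIm]
    constructor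
    · simp only [hk]
      simp
      exact ⟨hw'.1.le, hw'.2.le⟩
    · simp only [hk]
      simp
      constructor <;> nlinarith

end Pool.Agent.H46.Oka
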