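import Mathlib
import Pool.Agent.H46.Oka.Defs
import Pool.Agent.H46.Oka.Domain2

set_option autoImplicit false

open Metric Set Filter Complex TopologicalSpace
open scoped Topology Real Manifold ContDiff

namespace Pool.Agent.H46.Oka

noncomputable instance instCharted (U : Opens (ℂ × ℂ)) :
    ChartedSpace (ℂ × ℂ) (Opens.CompleteCopy U) :=
  inferInstanceAs (ChartedSpace (ℂ × ℂ) U)

instance instMan (U : Opens (ℂ × ℂ)) : IsManifold 𝓘(ℂ, ℂ × ℂ) ω (Opens.CompleteCopy U) :=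
  inferInstanceAs (IsManifold 𝓘(ℂ, ℂ × ℂ) ω U)

/-- holomorphic maps into an open subset of `ℂ²` -/
lemma mdiffWithinAt_val_iff (U : Opens (ℂ × ℂ)) {M : Type} [TopologicalSpace M]
    [ChartedSpace ℂ M] (f : M → Opens.CompleteCopy U) (s : Set M) (x : M) :
    MDifferentiableWithinAt 𝓘(ℂ, ℂ) 𝓘(ℂ, ℂ × ℂ) (fun z => ((f z).1 : ℂ × ℂ)) s x ↔
      MDifferentiableWithinAt 𝓘(ℂ, ℂ) 𝓘(ℂ, ℂ × ℂ) f s x :=
  ChartedSpace.liftPropWithinAt_subtypeVal_comp_iff (U := U) (M := M) (M' := ℂ × ℂ)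
    (P := DifferentiableWithinAtProp 𝓘(ℂ, ℂ) 𝓘(ℂ, ℂ × ℂ)) f s x

lemma mdiffOn_val_iff (U : Opens (ℂ × ℂ)) {M : Type} [TopologicalSpace M]
    [ChartedSpace ℂ M] (f : M → Opens.CompleteCopy U) (s : Set M) :
    MDifferentiableOn 𝓘(ℂ, ℂ) 𝓘(ℂ, ℂ × ℂ) (fun z => ((f z).1 : ℂ × ℂ)) s ↔
      MDifferentiableOn 𝓘(ℂ, ℂ) 𝓘(ℂ, ℂ × ℂ) f s :=
  forall₂_congr fun x _ => mdiffWithinAt_val_iff U f s x

lemma mdiff_val_iff (U : Opens (ℂ × ℂ)) {M : Type} [TopologicalSpace M]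
    [ChartedSpace ℂ M] (f : M → Opens.CompleteCopy U) :
    MDifferentiable 𝓘(ℂ, ℂ) 𝓘(ℂ, ℂ × ℂ) (fun z => ((f z).1 : ℂ × ℂ)) ↔
      MDifferentiable 𝓘(ℂ, ℂ) 𝓘(ℂ, ℂ × ℂ) f := by
  simp_rw [← mdifferentiableOn_univ]
  exact mdiffOn_val_iff U f univ

/-- comparison of the complete distance with the usual one near a compact set -/
lemma exists_dist_lt (U : Opens (ℂ × ℂ)) {A : Set U} (hA : IsCompact A) {e : ℝ} (he : 0 < e) :
    ∃ ρ > 0, ∀ p ∈ A, ∀ q : U, dist (q : ℂ × ℂ) p < ρ →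
      dist (α := Opens.CompleteCopy U) q p < e := by
  have h1 := hA.uniformContinuousAt_of_continuousAt
    (β := Opens.CompleteCopy U) (fun p : U => (p : Opens.CompleteCopy U))
    (fun a _ => (continuous_id : Continuous (id : U → U)).continuousAt)
    (Metric.dist_mem_uniformity he)
  obtain ⟨ρ, hρ, hρ2⟩ := Metric.mem_uniformity_dist.mp h1
  refine ⟨ρ, hρ, fun p hp q hq => ?_⟩
  have h2 : dist p q < ρ := by rw [dist_comm]; exact hq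
  have h3 := hρ2 h2 hp
  rw [dist_comm]
  exact h3

theorem weakOka1_of (U : Opens (ℂ × ℂ)) (hU : IsOkaDomain (U : Set (ℂ × ℂ))) :
    WeakOka1 (ℂ × ℂ) (Opens.CompleteCopy U) := by
  intro c₁ c₂ c r₁ r₂ r hr₁ hr₂ hr hdisj hs₁ hs₂ F hF e he
  obtain ⟨V, hV, hVs, hFV⟩ := hF
  rw [← mdiffOn_val_iff, mdifferentiableOn_iff_differentiableOn] at hFV
  have hKc : IsCompact (closedBall c₁ r₁ ∪ closedBall c₂ r₂) :=
    (isCompact_closedBall c₁ r₁).union (isCompact_closedBall c₂ r₂)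
  have hcont : ContinuousOn (fun z => (⟨(F z).1, (F z).2⟩ : U))
      (closedBall c₁ r₁ ∪ closedBall c₂ r₂) := by
    rw [Topology.IsInducing.subtypeVal.continuousOn_iff]
    exact hFV.continuousOn.mono hVs
  obtain ⟨ρ, hρ, hρ2⟩ := exists_dist_lt U (hKc.image_of_continuousOn hcont) he
  obtain ⟨G, hGd, hGU, hGF⟩ := hU.approx (fun z => (F z).1) V hV hFV c₁ c₂ r₁ r₂ hr₁ hr₂ hdisj hVs
    (fun z _ => (F z).2) ρ hρ
  refine ⟨fun z => ⟨G z, hGU z⟩, ⟨univ, isOpen_univ, subset_univ _, ?_⟩, fun z hz => ?_⟩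
  · rw [← mdiffOn_val_iff, mdifferentiableOn_iff_differentiableOn]
    exact hGd.differentiableOn
  · exact (hρ2 ⟨(F z).1, (F z).2⟩ (mem_image_of_mem _ hz) ⟨G z, hGU z⟩ (hGF z hz)).le

end Pool.Agent.H46.Oka
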