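import Mathlib
import Pool.Agent.H46.Oka.Weak

set_option autoImplicit false

open Metric Set Filter Complex TopologicalSpace
open scoped Topology Real Manifold ContDiff

namespace Pool.Agent.H46.Oka

/-- The punctured plane as an open Riemann surface. -/
def Cstar : Opens ℂ := ⟨{0}ᶜ, isOpen_compl_singleton⟩

lemma cstar_ne (z : Cstar) : (z : ℂ) ≠ 0 := z.2

instance : ConnectedSpace Cstar := by
  have h : IsConnected ({0}ᶜ : Set ℂ) := by
    refine isConnected_compl_singleton_of_one_lt_rank ?_ 0
    rw [← Nat.cast_one, ← Module.finrank_eq_rank, Complex.finrank_real_complex]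
    norm_num
  exact isConnected_iff_connectedSpace.mp h

/-- Entire functions without zeros have a logarithm. -/
lemma exists_log_entire {f : ℂ → ℂ} (hf : Differentiable ℂ f) (hne : ∀ z, f z ≠ 0) :
    ∃ g : ℂ → ℂ, Differentiable ℂ g ∧ ∀ z, exp (g z) = f z := by
  have hd : Differentiable ℂ (fun z => deriv f z / f z) := by
    have h1 : Differentiable ℂ (deriv f) := by
      have := hf.differentiableOn.deriv (s := univ) isOpen_univ
      exact differentiableOn_univ.mp this
    exact h1.div hf hne
  obtain ⟨g, hg⟩ := hd.isExactOn_univ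
  have hg' : ∀ z, HasDerivAt g (deriv f z / f z) z := fun z => hg z (mem_univ z)
  have hder : ∀ z, HasDerivAt (fun z => f z * exp (-g z)) 0 z := by
    intro z
    have h1 := (hf z).hasDerivAt.mul (hg' z).neg.cexp
    have h3 := hne z
    have h2 : deriv f z * cexp ((-g) z) + f z * (cexp ((-g) z) * -(deriv f z / f z)) = 0 := by
      field_simp
      ring
    rw [h2] at h1
    exact h1
  have hconst : ∀ z, f z * exp (-g z) = f 0 * exp (-g 0) := fun z =>
    is_const_of_deriv_eq_zero (fun w => (hder w).differentiableAt) (fun w => (hder w).deriv) z 0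
  have hC : f 0 * exp (-g 0) ≠ 0 := mul_ne_zero (hne 0) (exp_ne_zero _)
  refine ⟨fun z => g z + log (f 0 * exp (-g 0)), ?_, fun z => ?_⟩
  · exact Differentiable.add_const _ (fun z => (hg' z).differentiableAt)
  · rw [exp_add, exp_log hC, ← hconst z, mul_comm (f z), ← mul_assoc, ← exp_add]
    simp

/-- A continuous (differentiable) path with constant exponential is constant. -/
lemma const_of_exp_eq {v : ℝ → ℂ} (hv : Differentiable ℝ v) {a : ℂ} (h : ∀ s, exp (v s) = a)
    (s t : ℝ) : v s = v t := by
  refine is_const_of_deriv_eq_zero hv (fun r => ?_) s t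
  have h1 : HasDerivAt (fun s => exp (v s)) (exp (v r) * deriv v r) r := (hv r).hasDerivAt.cexp
  have h2 : (fun s => exp (v s)) = fun _ => a := funext h
  rw [h2] at h1
  have h3 := h1.unique (hasDerivAt_const r a)
  exact (mul_eq_zero.mp h3).resolve_left (exp_ne_zero _)

/-- An entire function `H₁` without zeros, `2 π i`-periodic and close to `exp` on the imaginary
axis, has a logarithm `ξ` with `ξ (w + 2 π i) = ξ w + 2 π i`. -/
lemma log_periodic {H : ℂ → ℂ} (hH : Differentiable ℂ H) (hne : ∀ z, H z ≠ 0)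
    (hper : ∀ w, H (w + 2 * π * I) = H w)
    (hclose : ∀ s : ℝ, ‖H (s * I) - exp (s * I)‖ ≤ 1 / 2) :
    ∃ ξ : ℂ → ℂ, Differentiable ℂ ξ ∧ (∀ z, exp (ξ z) = H z) ∧
      ∀ w, ξ (w + 2 * π * I) = ξ w + 2 * π * I := by
  obtain ⟨ξ, hξ, hξe⟩ := exists_log_entire hH hne
  refine ⟨ξ, hξ, hξe, ?_⟩
  -- the increment is constant
  have hinc : ∀ w, ξ (w + 2 * π * I) - ξ w = ξ (0 + 2 * π * I) - ξ 0 := by
    have hdd : Differentiable ℂ (fun w => ξ (w + 2 * π * I) - ξ w) :=
      (hξ.comp (differentiable_id.add_const _)).sub hξ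
    have hee : ∀ w, exp (ξ (w + 2 * π * I) - ξ w) = 1 := by
      intro w
      rw [exp_sub, hξe, hξe, hper, div_self (hne w)]
    intro w
    refine is_const_of_deriv_eq_zero hdd (fun z => ?_) w 0
    have h1 : HasDerivAt (fun w => exp (ξ (w + 2 * π * I) - ξ w))
        (exp (ξ (z + 2 * π * I) - ξ z) * deriv (fun w => ξ (w + 2 * π * I) - ξ w) z) z :=
      (hdd z).hasDerivAt.cexp
    have h2 : (fun w => exp (ξ (w + 2 * π * I) - ξ w)) = fun _ => (1 : ℂ) := funext hee
    rw [h2] at h1
    have h3 := h1.unique (hasDerivAt_const z (1 : ℂ))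
    exact (mul_eq_zero.mp h3).resolve_left (exp_ne_zero _)
  -- compute the increment
  set u : ℝ → ℂ := fun s => ξ (s * I) - s * I with hu
  have hud : Differentiable ℝ u := by
    have h1 : Differentiable ℝ (fun s : ℝ => (s : ℂ) * I) := by
      intro s
      exact ((Complex.ofRealCLM.differentiable s).mul_const I)
    have h2 : Differentiable ℝ ξ := hξ.restrictScalars ℝ
    exact (h2.comp h1).sub h1
  have hslit : ∀ s, exp (u s) ∈ slitPlane := by
    intro s
    have h1 : exp (u s) = H (s * I) * exp (-(s * I)) := by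
      rw [hu]; simp only; rw [exp_sub, hξe, exp_neg]; rfl
    have h2 : ‖exp (u s) - 1‖ ≤ 1 / 2 := by
      have h3 : exp (u s) - 1 = (H (s * I) - exp (s * I)) * exp (-(s * I)) := by
        rw [h1, sub_mul, ← exp_add]
        simp
      have h4 : ‖exp (-((s : ℂ) * I))‖ = 1 := by
        rw [← neg_mul, ← Complex.ofReal_neg]
        exact Complex.norm_exp_ofReal_mul_I _
      rw [h3, norm_mul, h4, mul_one]
      exact hclose s
    refine Or.inl ?_
    have h5 := Complex.abs_re_le_norm (exp (u s) - 1)
    rw [Complex.sub_re, Complex.one_re] at h5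
    have h6 := abs_le.mp (h5.trans h2)
    linarith [h6.1]
  have hconst : u (2 * π) - log (exp (u (2 * π))) = u 0 - log (exp (u 0)) := by
    refine const_of_exp_eq (v := fun s => u s - log (exp (u s))) (a := 1) ?_ ?_ (2 * π) 0
    · refine hud.sub fun s => ?_
      have h1 : HasDerivAt (fun s => exp (u s)) (exp (u s) * deriv u s) s :=
        (hud s).hasDerivAt.cexp
      exact (h1.clog_real (hslit s)).differentiableAt
    · intro s
      rw [exp_sub, exp_log (exp_ne_zero _), div_self (exp_ne_zero _)]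
  have hexp_eq : exp (u (2 * π)) = exp (u 0) := by
    have h1 : exp (u (2 * π)) = H (0 + 2 * π * I) * exp (-(2 * π * I)) := by
      rw [hu]; simp only
      rw [exp_sub, hξe, exp_neg, zero_add, div_eq_mul_inv]
      push_cast
      rfl
    have h2 : exp (u 0) = H 0 := by
      rw [hu]; simp only
      rw [exp_sub, hξe]
      simp
    rw [h1, h2, hper, exp_neg, exp_two_pi_mul_I, inv_one, mul_one]
  have hueq : u (2 * π) = u 0 := by
    rw [hexp_eq] at hconst
    exact sub_left_injective hconst
  intro w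
  have h1 : ξ (0 + 2 * π * I) - ξ 0 = 2 * π * I := by
    have h2 : ξ ((2 * π : ℝ) * I) - (2 * π : ℝ) * I = ξ ((0 : ℝ) * I) - ((0 : ℝ) : ℂ) * I := hueq
    push_cast at h2
    rw [zero_mul, sub_zero] at h2
    rw [zero_add, ← h2]
    ring
  have h3 := hinc w
  rw [h1] at h3
  exact (sub_eq_iff_eq_add'.mp h3)

end Pool.Agent.H46.Oka
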