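import Mathlib
import Pool.Agent.H46.Oka.NotOka

set_option autoImplicit false

open Metric Set Filter Complex TopologicalSpace
open scoped Topology Real Manifold ContDiff

namespace Pool.Agent.H46.Oka

/-- holomorphic functions on an open subset of `ℂ` -/
lemma mdiffAt_cstar {g : ℂ → ℂ × ℂ} {z : Cstar} (hg : DifferentiableAt ℂ g z) :
    MDifferentiableAt 𝓘(ℂ, ℂ) 𝓘(ℂ, ℂ × ℂ) (fun p : Cstar => g p) z := by
  have h1 : MDifferentiableAt 𝓘(ℂ, ℂ) 𝓘(ℂ, ℂ × ℂ) g (z : ℂ) := mdifferentiableAt_iff_differentiableAt.mpr hg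
  have h2 := (differentiableWithinAt_localInvariantProp (I := 𝓘(ℂ, ℂ))
    (I' := 𝓘(ℂ, ℂ × ℂ))).liftPropAt_iff_comp_subtype_val (U := Cstar) g z
  exact h2.mp h1

/-- `exp` as a holomorphic map to `ℂ*`. -/
noncomputable def expC (w : ℂ) : Cstar := ⟨exp w, exp_ne_zero w⟩

lemma mdiff_expC : MDifferentiable 𝓘(ℂ, ℂ) 𝓘(ℂ, ℂ) expC := by
  intro w
  have h := ChartedSpace.liftPropWithinAt_subtypeVal_comp_iff (U := Cstar) (M := ℂ) (M' := ℂ)
    (P := DifferentiableWithinAtProp 𝓘(ℂ, ℂ) 𝓘(ℂ, ℂ)) expC univ w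
  refine h.mp ?_
  have h1 : MDifferentiableAt 𝓘(ℂ, ℂ) 𝓘(ℂ, ℂ) exp w :=
    mdifferentiableAt_iff_differentiableAt.mpr Complex.differentiableAt_exp
  exact h1

/-- The unit circle in the punctured plane. -/
def circleSet : Set Cstar := {z | ‖(z : ℂ)‖ = 1}

lemma isCompact_circleSet : IsCompact circleSet := by
  rw [Subtype.isCompact_iff]
  have : Subtype.val '' circleSet = sphere (0 : ℂ) 1 := by
    ext z
    simp only [Set.mem_image, mem_sphere_zero_iff_norm]
    constructor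
    · rintro ⟨p, hp, rfl⟩; exact hp
    · intro hz
      exact ⟨⟨z, by rintro rfl; simp at hz⟩, hz, rfl⟩
  rw [this]
  exact isCompact_sphere _ _

/-- the real ray through `p` -/
noncomputable def ray (p : Cstar) (t : ℝ) : Cstar :=
  ⟨((Real.exp t : ℝ) : ℂ) * p, mul_ne_zero (by exact_mod_cast (Real.exp_pos t).ne') (cstar_ne p)⟩

lemma continuous_ray (p : Cstar) : Continuous (ray p) := by
  unfold ray
  fun_prop

lemma norm_ray (p : Cstar) (t : ℝ) : ‖(ray p t : ℂ)‖ = Real.exp t * ‖(p : ℂ)‖ := by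
  show ‖((Real.exp t : ℝ) : ℂ) * (p : ℂ)‖ = _
  rw [norm_mul, Complex.norm_real, Real.norm_of_nonneg (Real.exp_pos t).le]

lemma ray_zero (p : Cstar) : ray p 0 = p := by
  ext; simp [ray]

lemma circle_runge : ∀ p ∈ circleSetᶜ,
    ¬ IsCompact (closure (connectedComponentIn circleSetᶜ p)) := by
  intro p hp hcomp
  have hp1 : ‖(p : ℂ)‖ ≠ 1 := hp
  have hp0 : 0 < ‖(p : ℂ)‖ := norm_pos_iff.mpr (cstar_ne p)
  have himg : IsCompact (Subtype.val '' closure (connectedComponentIn circleSetᶜ p)) :=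
    hcomp.image continuous_subtype_val
  rcases lt_or_gt_of_ne hp1 with hlt | hgt
  · -- inside: the ray accumulates at `0`
    have hseg : IsPreconnected (ray p '' Iic 0) :=
      isPreconnected_Iic.image _ (continuous_ray p).continuousOn
    have hsub : ray p '' Iic 0 ⊆ connectedComponentIn circleSetᶜ p := by
      refine hseg.subset_connectedComponentIn ⟨0, mem_Iic.mpr le_rfl, ray_zero p⟩ ?_
      rintro _ ⟨t, ht, rfl⟩ h
      have h1 : ‖(ray p t : ℂ)‖ = 1 := h
      rw [norm_ray] at h1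
      have ht' : Real.exp t ≤ 1 := Real.exp_le_one_iff.mpr ht
      nlinarith
    have hcl := himg.isClosed
    have h0 : (0 : ℂ) ∈ Subtype.val '' closure (connectedComponentIn circleSetᶜ p) := by
      rw [← hcl.closure_eq, Metric.mem_closure_iff]
      intro ε hε
      set t : ℝ := min 0 (Real.log (ε / 2)) with ht
      refine ⟨(ray p t : ℂ), mem_image_of_mem _ (subset_closure (hsub
        (mem_image_of_mem _ (mem_Iic.mpr (min_le_left _ _) : t ∈ Iic (0 : ℝ))))), ?_⟩
      rw [dist_comm, dist_zero_right, norm_ray]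
      have h1 : Real.exp t ≤ ε / 2 := by
        calc Real.exp t ≤ Real.exp (Real.log (ε / 2)) := Real.exp_le_exp.mpr (min_le_right _ _)
          _ = ε / 2 := Real.exp_log (by linarith)
      nlinarith [Real.exp_pos t]
    obtain ⟨q, -, hq⟩ := h0
    exact cstar_ne q hq
  · -- outside: the ray is unbounded
    have hseg : IsPreconnected (ray p '' Ici 0) :=
      isPreconnected_Ici.image _ (continuous_ray p).continuousOn
    have hsub : ray p '' Ici 0 ⊆ connectedComponentIn circleSetᶜ p := by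
      refine hseg.subset_connectedComponentIn ⟨0, mem_Ici.mpr le_rfl, ray_zero p⟩ ?_
      rintro _ ⟨t, ht, rfl⟩ h
      have h1 : ‖(ray p t : ℂ)‖ = 1 := h
      rw [norm_ray] at h1
      have ht' : 1 ≤ Real.exp t := Real.one_le_exp ht
      nlinarith
    obtain ⟨C, hC⟩ := himg.isBounded.exists_norm_le
    have h1 := hC _ (mem_image_of_mem _ (subset_closure (hsub
      (mem_image_of_mem _ (show |C| ∈ Ici 0 from abs_nonneg C)))))
    rw [norm_ray] at h1
    have h2 := Real.add_one_le_exp |C|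
    have h3 := le_abs_self C
    nlinarith [Real.exp_pos |C|]

instance : NoncompactSpace Cstar := by
  refine ⟨fun h => ?_⟩
  have h1 := (h.image (continuous_subtype_val (p := fun z => z ∈ Cstar))).isBounded
  obtain ⟨C, hC⟩ := h1.exists_norm_le
  have h2 : ((|C| + 1 : ℝ) : ℂ) ≠ 0 := by
    exact_mod_cast (by positivity : (0 : ℝ) < |C| + 1).ne'
  have h3 := hC _ (mem_image_of_mem _ (mem_univ (⟨((|C| + 1 : ℝ) : ℂ), h2⟩ : Cstar)))
  have h4 : ‖((|C| + 1 : ℝ) : ℂ)‖ ≤ C := h3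
  rw [Complex.norm_real, Real.norm_of_nonneg (by positivity)] at h4
  linarith [le_abs_self C]

/-- the sequence `3, 4, 5, ...` -/
noncomputable def seqA (i : ℕ) : Cstar := ⟨(((i : ℝ) + 3 : ℝ) : ℂ), by
  have h : (0 : ℝ) < (i : ℝ) + 3 := by positivity
  show (((i : ℝ) + 3 : ℝ) : ℂ) ≠ 0
  exact Complex.ofReal_ne_zero.mpr h.ne'⟩

lemma seqA_inj : Function.Injective seqA := by
  intro i j h
  have h1 : (((i : ℝ) + 3 : ℝ) : ℂ) = (((j : ℝ) + 3 : ℝ) : ℂ) := congrArg Subtype.val h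
  have h2 : (i : ℝ) + 3 = j + 3 := by exact_mod_cast h1
  exact_mod_cast add_right_cancel h2

lemma seqA_discrete (C : Set Cstar) (hC : IsCompact C) : {i | seqA i ∈ C}.Finite := by
  obtain ⟨M, hM⟩ := (hC.image continuous_subtype_val).isBounded.exists_norm_le
  obtain ⟨N, hN⟩ := exists_nat_gt M
  refine (Set.finite_lt_nat N).subset fun i hi => ?_
  have h1 : ‖(seqA i : ℂ)‖ ≤ M := hM _ ⟨seqA i, hi, rfl⟩
  have h1' : ‖(((i : ℝ) + 3 : ℝ) : ℂ)‖ ≤ M := h1
  rw [Complex.norm_real, Real.norm_of_nonneg (by positivity)] at h1'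
  have h2 : (i : ℝ) < N := by linarith
  exact_mod_cast h2

end Pool.Agent.H46.Oka
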