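import Mathlib
import Pool.Agent.H46.Oka.NotOka2

set_option autoImplicit false

open Metric Set Filter Complex TopologicalSpace
open scoped Topology Real Manifold ContDiff

namespace Pool.Agent.H46.Oka

/-- cutoff in the real part -/
noncomputable def cut (s : ℝ) : ℝ := max 0 (min 1 (4 - 2 * s))

lemma continuous_cut : Continuous cut := by unfold cut; fun_prop

lemma cut_one {s : ℝ} (hs : s ≤ 3 / 2) : cut s = 1 := by
  unfold cut
  rw [min_eq_left (by linarith), max_eq_right zero_le_one]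

lemma cut_zero {s : ℝ} (hs : 2 ≤ s) : cut s = 0 := by
  unfold cut
  exact max_eq_left ((min_le_right _ _).trans (by linarith))

/-- modification of the identity, real for large real part -/
noncomputable def modw (z : ℂ) : ℂ := ⟨z.re, cut z.re * z.im⟩

lemma continuous_modw : Continuous modw := by
  have : modw = fun z => ((z.re : ℝ) : ℂ) + ((cut z.re * z.im : ℝ) : ℂ) * I := by
    ext z; simp [modw, Complex.mk_eq_add_mul_I]
  rw [this]
  have := continuous_cut
  fun_prop

lemma modw_eq {z : ℂ} (hz : z.re ≤ 3 / 2) : modw z = z := by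
  apply Complex.ext <;> simp [modw, cut_one hz]

lemma modw_real {z : ℂ} (hz : 2 ≤ z.re) : modw z = (z.re : ℂ) := by
  apply Complex.ext <;> simp [modw, cut_zero hz]

lemma modw_ne {z : ℂ} (hz : z ≠ 0) : modw z ≠ 0 := by
  intro h
  have hre : z.re = 0 := by
    have := congrArg Complex.re h
    simpa [modw] using this
  rw [modw_eq (by rw [hre]; norm_num)] at h
  exact hz h

/-- the projection to the annulus `1 - η ≤ |x| ≤ 1 + η` of the modified identity -/
noncomputable def phi (η : ℝ) (z : ℂ) : ℂ :=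
  modw z / ‖modw z‖ * ((max (1 - η) (min (1 + η) ‖modw z‖) : ℝ) : ℂ)

lemma continuousOn_phi (η : ℝ) : ContinuousOn (phi η) {0}ᶜ := by
  have h1 : ContinuousOn modw {0}ᶜ := continuous_modw.continuousOn
  unfold phi
  refine ContinuousOn.mul (ContinuousOn.div h1 ?_ ?_) ?_
  · exact Complex.continuous_ofReal.comp_continuousOn h1.norm
  · intro z hz
    exact_mod_cast (norm_pos_iff.mpr (modw_ne hz)).ne'
  · refine Complex.continuous_ofReal.comp_continuousOn ?_
    exact continuousOn_const.sup (continuousOn_const.inf h1.norm)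

lemma norm_phi {η : ℝ} (hη1 : η < 1) {z : ℂ} (hz : z ≠ 0) :
    ‖phi η z‖ = max (1 - η) (min (1 + η) ‖modw z‖) := by
  have h0 : ‖modw z‖ ≠ 0 := (norm_pos_iff.mpr (modw_ne hz)).ne'
  unfold phi
  rw [norm_mul, norm_div, Complex.norm_real, Complex.norm_real, norm_norm, div_self h0, one_mul,
    Real.norm_of_nonneg (le_max_of_le_left (by linarith))]

lemma phi_eq {η : ℝ} (hη : η ≤ 1 / 2) {z : ℂ} (h1 : 1 - η < ‖z‖) (h2 : ‖z‖ < 1 + η) (hz : z ≠ 0) :
    phi η z = z := by
  have hre : z.re ≤ 3 / 2 := by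
    have := Complex.re_le_norm z
    linarith
  unfold phi
  rw [modw_eq hre, min_eq_right h2.le, max_eq_right h1.le]
  have h0 : (‖z‖ : ℂ) ≠ 0 := by exact_mod_cast (norm_pos_iff.mpr hz).ne'
  field_simp

lemma phi_const {η : ℝ} (hη0 : 0 < η) (hη : η ≤ 1 / 2) {z : ℂ} (hz : 2 ≤ z.re) :
    phi η z = ((1 + η : ℝ) : ℂ) := by
  unfold phi
  have h0 : (z.re : ℂ) ≠ 0 := by
    have : z.re ≠ 0 := by linarith
    exact_mod_cast this
  rw [modw_real hz, Complex.norm_real, Real.norm_of_nonneg (by linarith), div_self h0, one_mul,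
    min_eq_left (by linarith), max_eq_right (by linarith)]

theorem not_oka1_of (U : Opens (ℂ × ℂ)) (hU : IsOkaDomain (U : Set (ℂ × ℂ))) :
    ¬ Oka1 (ℂ × ℂ) (Opens.CompleteCopy U) := by
  intro hoka
  -- a neighbourhood of the circle
  have hcirc : IsCompact ((fun x : ℂ => (x, (0 : ℂ))) '' sphere 0 1) :=
    (isCompact_sphere _ _).image (by fun_prop)
  have hcircU : ((fun x : ℂ => (x, (0 : ℂ))) '' sphere 0 1) ⊆ (U : Set (ℂ × ℂ)) := by
    rintro _ ⟨x, hx, rfl⟩
    exact hU.circle x (by simpa using hx)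
  obtain ⟨δ, hδ, hδU⟩ := hcirc.exists_thickening_subset_open U.isOpen hcircU
  set η : ℝ := min (δ / 2) (1 / 2) with hη
  have hη0 : 0 < η := lt_min (by linarith) (by norm_num)
  have hη2 : η ≤ 1 / 2 := min_le_right _ _
  have hηδ : η < δ := lt_of_le_of_lt (min_le_left _ _) (by linarith)
  have hannU : ∀ x : ℂ, 1 - η ≤ ‖x‖ → ‖x‖ ≤ 1 + η → (x, (0 : ℂ)) ∈ U := by
    intro x h1 h2
    have hx0 : 0 < ‖x‖ := by linarith
    apply hδU
    rw [mem_thickening_iff]
    refine ⟨(x / ‖x‖, 0), ⟨x / ‖x‖, ?_, rfl⟩, ?_⟩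
    · simp [hx0.ne']
    · rw [Prod.dist_eq, dist_self, max_eq_left dist_nonneg, dist_eq_norm]
      have h3 : x - x / ‖x‖ = x / ‖x‖ * ((‖x‖ - 1 : ℝ) : ℂ) := by
        have : (‖x‖ : ℂ) ≠ 0 := by exact_mod_cast hx0.ne'
        push_cast
        field_simp
      rw [h3, norm_mul, norm_div, Complex.norm_real, Complex.norm_real, norm_norm,
        div_self hx0.ne', one_mul, Real.norm_eq_abs]
      refine lt_of_le_of_lt ?_ hηδ
      rw [abs_le]
      constructor <;> linarith
  have hphiU : ∀ z : Cstar, (phi η z, (0 : ℂ)) ∈ U := by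
    intro z
    have hn := norm_phi (η := η) (by linarith) (cstar_ne z)
    refine hannU _ ?_ ?_
    · rw [hn]; exact le_max_left _ _
    · rw [hn]; exact max_le (by linarith) (min_le_left _ _)
  -- the continuous map
  have hcont : Continuous fun z : Cstar => (⟨(phi η z, 0), hphiU z⟩ : U) := by
    refine Continuous.subtype_mk ?_ _
    refine Continuous.prodMk ?_ continuous_const
    exact (continuousOn_phi η).comp_continuous continuous_subtype_val fun z => cstar_ne z
  let f : C(Cstar, Opens.CompleteCopy U) := ⟨fun z => ⟨(phi η z, 0), hphiU z⟩, hcont⟩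
  have hfval : ∀ z : Cstar, ((f z).1 : ℂ × ℂ) = (phi η z, 0) := fun z => rfl
  have hfhol : HolomorphicNear (E := ℂ) (E' := ℂ × ℂ) f (circleSet ∪ range seqA) := by
    refine ⟨{z : Cstar | (1 - η < ‖(z : ℂ)‖ ∧ ‖(z : ℂ)‖ < 1 + η) ∨ 2 < (z : ℂ).re}, ?_, ?_, ?_⟩
    · have h1 : Continuous fun z : Cstar => ‖(z : ℂ)‖ := continuous_subtype_val.norm
      have h2 : Continuous fun z : Cstar => (z : ℂ).re :=
        Complex.continuous_re.comp continuous_subtype_val
      exact ((isOpen_lt continuous_const h1).inter (isOpen_lt h1 continuous_const)).union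
        (isOpen_lt continuous_const h2)
    · rintro z (hz | ⟨i, rfl⟩)
      · left
        have : ‖(z : ℂ)‖ = 1 := hz
        constructor <;> linarith
      · right
        show 2 < ((((i : ℝ) + 3 : ℝ) : ℂ)).re
        rw [Complex.ofReal_re]
        have : (0 : ℝ) ≤ i := Nat.cast_nonneg i
        linarith
    · rw [← mdiffOn_val_iff]
      intro z hz
      refine MDifferentiableAt.mdifferentiableWithinAt ?_
      have hev : DifferentiableAt ℂ (fun w : ℂ => ((phi η w, (0 : ℂ)) : ℂ × ℂ)) (z : ℂ) := by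
        refine DifferentiableAt.prodMk ?_ (differentiableAt_const _)
        rcases hz with ⟨h1, h2⟩ | h1
        · have hopen : IsOpen {w : ℂ | (1 - η < ‖w‖ ∧ ‖w‖ < 1 + η) ∧ w ≠ 0} :=
            ((isOpen_lt continuous_const continuous_norm).inter
              (isOpen_lt continuous_norm continuous_const)).inter isOpen_compl_singleton
          have hEq : phi η =ᶠ[𝓝 (z : ℂ)] id := by
            filter_upwards [hopen.mem_nhds ⟨⟨h1, h2⟩, cstar_ne z⟩] with w hw
            exact phi_eq hη2 hw.1.1 hw.1.2 hw.2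
          exact differentiableAt_id.congr_of_eventuallyEq hEq
        · have hopen : IsOpen {w : ℂ | 2 < w.re} := isOpen_lt continuous_const Complex.continuous_re
          have hEq : phi η =ᶠ[𝓝 (z : ℂ)] fun _ => ((1 + η : ℝ) : ℂ) := by
            filter_upwards [hopen.mem_nhds h1] with w hw
            exact phi_const hη0 hη2 (le_of_lt hw)
          exact (differentiableAt_const _).congr_of_eventuallyEq hEq
      exact mdiffAt_cstar hev
  obtain ⟨F, hFd, -, ⟨d, hd, hFK⟩, -⟩ := hoka Cstar circleSet isCompact_circleSet circle_runge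
    seqA seqA_inj seqA_discrete (fun _ => 0) (1 / 2) (by norm_num) f hfhol
  -- the entire map
  have hHd : Differentiable ℂ (fun w => ((F (expC w)).1 : ℂ × ℂ)) := by
    rw [← mdifferentiable_iff_differentiable]
    exact (mdiff_val_iff U (fun w => F (expC w))).mpr (hFd.comp mdiff_expC)
  have hper : ∀ w, ((F (expC (w + 2 * π * I))).1 : ℂ × ℂ) = (F (expC w)).1 := by
    intro w
    have : expC (w + 2 * π * I) = expC w := by
      apply Subtype.ext
      show exp (w + 2 * π * I) = exp w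
      rw [exp_add, exp_two_pi_mul_I, mul_one]
    rw [this]
  have hmem : ∀ w, ((F (expC w)).1 : ℂ × ℂ) ∈ U := fun w => (F (expC w)).2
  have hne : ∀ w, ((F (expC w)).1 : ℂ × ℂ).1 ≠ 0 := fun w => hU.ne _ (hmem w)
  have hclose : ∀ s : ℝ, ‖((F (expC (s * I))).1 : ℂ × ℂ).1 - exp (s * I)‖ ≤ 1 / 2 := by
    intro s
    have hs : expC (s * I) ∈ circleSet := by
      show ‖exp (s * I)‖ = 1
      exact Complex.norm_exp_ofReal_mul_I s
    have h1 := hFK _ hs
    have h2 : dist ((F (expC (s * I))).1 : ℂ × ℂ) ((f (expC (s * I))).1 : ℂ × ℂ) ≤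
        dist (F (expC (s * I))) (f (expC (s * I))) :=
      Opens.CompleteCopy.dist_val_le_dist _ _
    have h3 : dist ((F (expC (s * I))).1 : ℂ × ℂ).1 ((f (expC (s * I))).1 : ℂ × ℂ).1 ≤
        dist ((F (expC (s * I))).1 : ℂ × ℂ) ((f (expC (s * I))).1 : ℂ × ℂ) := by
      rw [Prod.dist_eq]; exact le_max_left _ _
    have h4 : ((f (expC (s * I))).1 : ℂ × ℂ).1 = exp (s * I) := by
      show phi η (exp (s * I)) = exp (s * I)
      have h5 : ‖exp ((s : ℂ) * I)‖ = 1 := Complex.norm_exp_ofReal_mul_I s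
      exact phi_eq hη2 (by rw [h5]; linarith) (by rw [h5]; linarith) (exp_ne_zero _)
    rw [h4, dist_eq_norm] at h3
    linarith
  obtain ⟨ξ, hξ, hξe, hξp⟩ := log_periodic (H := fun w => ((F (expC w)).1 : ℂ × ℂ).1)
    hHd.fst hne (fun w => by rw [hper]) hclose
  refine hU.noann ξ (fun w => ((F (expC w)).1 : ℂ × ℂ).2) hξ hHd.snd hξp
    (fun w => by rw [hper]) fun w => ?_
  rw [hξe]
  exact hmem w

theorem exists_weak_not_oka : ∃ (X : Type) (_ : MetricSpace X) (_ : CompleteSpace X)
    (_ : ConnectedSpace X) (_ : ChartedSpace (ℂ × ℂ) X) (_ : IsManifold 𝓘(ℂ, ℂ × ℂ) ω X),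
    WeakOka1 (ℂ × ℂ) X ∧ ¬ Oka1 (ℂ × ℂ) X := by
  obtain ⟨X, hX⟩ := exists_okaDomain
  set U : Opens (ℂ × ℂ) := ⟨X, hX.isOpen⟩ with hUdef
  have hU : IsOkaDomain (U : Set (ℂ × ℂ)) := hX
  have hconn : ConnectedSpace (Opens.CompleteCopy U) := by
    have : ConnectedSpace U := isConnected_iff_connectedSpace.mp hX.isConnected
    exact this
  exact ⟨Opens.CompleteCopy U, inferInstance, inferInstance, hconn, instCharted U, instMan U,
    weakOka1_of U hU, not_oka1_of U hU⟩

end Pool.Agent.H46.Oka
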